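import Pool.Agent.Helper11.PK.VisData

/-! # From bounded bases to finite generation -/

set_option linter.unusedSectionVars false

namespace Pool.Agent.Helper11.PK

universe u v w

/-- A subgroup `D` of a group, contained in the image of an injective homomorphism from a free
group, has a free basis; if no `n+1` basis elements are possible, it has a basis of at most `n`
elements. -/
theorem exists_basis {G : Type u} [Group G] {r : ℕ} (a : Fin r → G)
    (hfree : Function.Injective (FreeGroup.lift a : FreeGroup (Fin r) →* G)) (D : Subgroup G)
    (hD : D ≤ Subgroup.closure (Set.range a)) (n : ℕ)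
    (hb : ∀ (Y : Type) (c : Y → G), Function.Injective (FreeGroup.lift c) →
      Subgroup.closure (Set.range c) = D → ∀ y : Fin (n + 1) → Y, Function.Injective y → False) :
    ∃ k ≤ n, ∃ c : Fin k → G, Function.Injective (FreeGroup.lift c : FreeGroup (Fin k) →* G) ∧
      Subgroup.closure (Set.range c) = D := by
  classical
  -- `D` is free
  have hrange : ∀ d : D, ∃ w, FreeGroup.lift a w = d := by
    intro d
    have h1 := hD d.2
    rw [← FreeGroup.range_lift_eq_closure] at h1
    exact h1
  let K : Subgroup (FreeGroup (Fin r)) := D.comap (FreeGroup.lift a)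
  let e : K ≃* D := MulEquiv.ofBijective ((FreeGroup.lift a).subgroupComap D) (by
    constructor
    · intro x y hxy
      apply Subtype.ext
      apply hfree
      exact congrArg Subtype.val hxy
    · intro d
      obtain ⟨w, hw⟩ := hrange d
      refine ⟨⟨w, ?_⟩, Subtype.ext hw⟩
      change FreeGroup.lift a w ∈ D
      rw [hw]; exact d.2)
  have hKfree : IsFreeGroup K := inferInstance
  let Y := IsFreeGroup.Generators K
  let t : FreeGroup Y ≃* K := (IsFreeGroup.toFreeGroup K).symm
  let f : FreeGroup Y →* G := (D.subtype.comp e.toMonoidHom).comp t.toMonoidHom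
  have hf : Function.Injective f := by
    intro x y hxy
    apply t.injective
    apply e.injective
    exact Subtype.ext hxy
  have hfr : f.range = D := by
    ext g
    constructor
    · rintro ⟨x, rfl⟩
      exact (e (t x)).2
    · intro hg
      obtain ⟨z, hz⟩ := e.surjective ⟨g, hg⟩
      obtain ⟨x, hx⟩ := t.surjective z
      refine ⟨x, ?_⟩
      change ((e (t x) : D) : G) = g
      rw [hx, hz]
  let c : Y → G := fun y => f (FreeGroup.of y)
  have hlc : FreeGroup.lift c = f := by
    ext y
    simp [c]
  have hcl : Subgroup.closure (Set.range c) = D := by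
    rw [← FreeGroup.range_lift_eq_closure, hlc, hfr]
  have hno : ∀ y : Fin (n + 1) → Y, Function.Injective y → False :=
    hb Y c (by rw [hlc]; exact hf) hcl
  have hfinY : Finite Y := by
    by_contra hinf
    have : Infinite Y := not_finite_iff_infinite.1 hinf
    exact hno (fun i => Infinite.natEmbedding Y i)
      (fun i j hij => Fin.ext ((Infinite.natEmbedding Y).injective hij))
  have hcard : Nat.card Y ≤ n := by
    by_contra hlt
    push Not at hlt
    let e' := Finite.equivFin Y
    exact hno (fun i => e'.symm (Fin.castLE hlt i))
      (fun i j hij => by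
        have := e'.symm.injective hij
        exact Fin.castLE_injective hlt this)
  let e' : Fin (Nat.card Y) ≃ Y := (Finite.equivFin Y).symm
  refine ⟨Nat.card Y, hcard, fun i => c (e' i), ?_, ?_⟩
  · have h1 : (FreeGroup.lift (fun i => c (e' i)) : FreeGroup (Fin (Nat.card Y)) →* G) =
        (FreeGroup.lift c).comp (FreeGroup.map e') := by
      ext i
      simp
    rw [h1, hlc]
    exact hf.comp (FreeGroup.map_injective e'.injective)
  · have h2 : Set.range (fun i => c (e' i)) = Set.range c := e'.surjective.range_comp c
    rw [h2, hcl]

end Pool.Agent.Helper11.PK
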