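import Pool.Agent.Helper11.PK.Defs

/-! # Statement-level definitions for the coherence theorem -/

namespace Pool.Agent.Helper11.PK

universe u

/-- The edge groups allowed in the coherence theorem: the intersections `A ∩ B` where `B ≤ G` is
finitely generated and `A ≤ G` is generated by at most two elements or by elements which are
visible for some prime.  (With `B = A`: all subgroups generated by at most two elements and all
subgroups generated by visible elements.) -/
def EdgeOK {G : Type u} [Group G] (E : Subgroup G) : Prop :=
  ∃ (r : ℕ) (a : Fin r → G) (B : Subgroup G), B.FG ∧
    (r ≤ 2 ∨ ∃ p : ℕ, p.Prime ∧ Visible p a) ∧ E = Subgroup.closure (Set.range a) ⊓ B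

end Pool.Agent.Helper11.PK
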