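import Pool.Agent.Helper11.PK.Tree
import Pool.Agent.Helper11.PK.Stmt

/-! # Coherence theorem -/

set_option linter.unusedSectionVars false

namespace Pool.Agent.Helper11.PK

universe u v w

open Pool.Agent.Helper28.Para Pool.Agent.Helper11.PC

theorem good_of_edgeOK {X : Type v} {G : Type u} [Group G] (hG : IsParafreeOn X G)
    (E : Subgroup G) (hE : EdgeOK E) : GoodSub E := by
  obtain ⟨r, a, B, hB, hr | ⟨p, hp, ⟨P, _, _, hP, π, hr⟩⟩, rfl⟩ := hE
  · obtain ⟨x, y, hxy⟩ := exists_pair hr a
    rw [hxy]
    exact good_two hG x y B hB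
  · haveI : Fact p.Prime := ⟨hp⟩
    exact good_inter hG p hP π a hr B hB

theorem isCoherent_apply {G : Type u} [Group G] (S : Subgroup G) (hS : IsCoherent S)
    (M : Subgroup G) (hM : M ≤ S) (hMf : M.FG) : Group.IsFinitelyPresented M := by
  have h1 : (M.subgroupOf S).FG := by
    apply fg_of_map S.subtype_injective
    rw [Subgroup.subgroupOf_map_subtype, inf_eq_left.2 hM]
    exact hMf
  haveI := hS _ h1
  exact Group.IsFinitelyPresented.equiv (Subgroup.subgroupOfEquivOfLe hM)

theorem coherent_of_tree {X : Type v} {G : Type u} [Group G] (hG : IsParafreeOn X G)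
    (K : Subgroup G) {V : Type w} [MulAction K V] (T : SimpleGraph V) (hT : T.IsTree)
    (hact : ∀ (g : K) (v w : V), T.Adj v w → T.Adj (g • v) (g • w))
    (hcoh : ∀ v : V, IsCoherent (MulAction.stabilizer K v))
    (hedge : ∀ v w : V, T.Adj v w →
      EdgeOK ((MulAction.stabilizer K v ⊓ MulAction.stabilizer K w).map K.subtype)) :
    IsCoherent K := by
  intro H hH
  have hfg : Group.FG H := (Group.fg_iff_subgroup_fg H).2 hH
  have hactH : ∀ (g : H) (v w : V), T.Adj v w → T.Adj (g • v) (g • w) :=
    fun g v w h => hact (g : K) v w h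
  have hstab : ∀ v : V, MulAction.stabilizer H v = (MulAction.stabilizer K v).subgroupOf H := by
    intro v
    ext g
    rfl
  have hedgeH : ∀ v w : V, T.Adj v w →
      (MulAction.stabilizer H v ⊓ MulAction.stabilizer H w).FG := by
    intro v w hvw
    have h1 := good_of_edgeOK hG _ (hedge v w hvw) (H.map K.subtype) (fg_map' _ hH)
    rw [← Subgroup.map_inf _ _ _ K.subtype_injective] at h1
    have h2 := fg_of_map K.subtype_injective h1
    apply fg_of_map H.subtype_injective
    have h3 : MulAction.stabilizer H v ⊓ MulAction.stabilizer H w =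
        (MulAction.stabilizer K v ⊓ MulAction.stabilizer K w).subgroupOf H := by
      rw [hstab, hstab]; rfl
    rw [h3, Subgroup.subgroupOf_map_subtype, inf_comm]
    exact h2
  have hP := Helper69.PC.tproj hT
  have hB := Helper55.PC.tbtw hT
  have hHull := Helper79.PC.thull hT hP hB
  have hvfg := Helper32.PC.tvf hT hHull hactH (Helper58.PC.chain hT hP hB hactH) hfg hedgeH
  refine Helper32.PC.tfp hT hHull hactH (fun Q _ => Helper58.PC.chain hT hP hB hactH)
    (fun K' hK' => Helper29.PC.fpc hfg K' hK') hfg hedgeH ?_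
  intro v
  have h4 : (MulAction.stabilizer H v).map H.subtype ≤ MulAction.stabilizer K v := by
    rw [hstab, Subgroup.subgroupOf_map_subtype]
    exact inf_le_left
  haveI := isCoherent_apply _ (hcoh v) _ h4 (fg_map' _ (hvfg v))
  exact Group.IsFinitelyPresented.equiv
    ((MulAction.stabilizer H v).equivMapOfInjective H.subtype H.subtype_injective).symm

end Pool.Agent.Helper11.PK
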