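import Pool.Agent.Helper11.PK.HSTame
import Pool.Agent.Helper32.PK.PTIN
import Pool.Agent.Helper79.PK.PGEO
import Pool.Agent.Helper56.PC.LINALG
import Pool.Agent.Helper86.PK.PS34
import Pool.Agent.Helper19.PC.FDER
import Pool.Agent.Helper93.PC.ORELIN

/-! # The core of the inertness theorem -/

set_option linter.unusedSectionVars false

namespace Pool.Agent.Helper11.PK

universe u v w

open MonoidAlgebra Helper11.PC
open scoped Pointwise

section

variable {k : Type} [Field k] {G : Type u} [Group G] [LinearOrder G] [MulLeftStrictMono G] [MulRightStrictMono G]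

/-- Inverses in the ring of series, with all additional properties. -/
theorem HS.exists_inv' 
    {N : ℕ → Type u} [∀ i, Group (N i)] [∀ i, LinearOrder (N i)]
    [∀ i, MulLeftStrictMono (N i)] [∀ i, MulRightStrictMono (N i)]
    (p : ∀ i, G →* N i) (hp : ∀ i, Monotone (p i))
    (hker : ∀ i j, i ≤ j → ∀ x, p j x = 1 → p i x = 1)
    (hsep : ∀ x, x ≠ 1 → ∃ i, p i x ≠ 1) (B : Subgroup G) (f : HS k G) (hf : f ∈ evSub k B p hp)
    (hne : f ≠ 0) : ∃ g ∈ evSub k B p hp, f * g = 1 ∧ g * f = 1 := by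
  obtain ⟨g, hg, h1, h2, h3, h4⟩ := Helper32.PK.PTIN.ptin (fun G _ _ _ _ y hy h1 => Helper79.PK.pgeo hy h1) f.pwo
    (fun h => hne (HS.ext h)) p hp hker hsep hf.2
  exact ⟨HS.mk g hg, ⟨h3 B hf.1, h4⟩, HS.ext h1, HS.ext h2⟩

theorem HS.exists_inv 
    (f : HS k G) (hne : f ≠ 0) : ∃ g, f * g = 1 ∧ g * f = 1 := by
  have hp : ∀ _ : ℕ, Monotone (MonoidHom.id G) := fun _ => monotone_id
  have ht : ∀ h : HS k G, Tame (MonoidHom.id G) h.fn := fun h =>
    { fib := fun y => (Set.finite_singleton y).subset fun x hx => hx.1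
      pwo := by
        have : (⇑(MonoidHom.id G)) = id := rfl
        rw [this, Set.image_id]; exact h.pwo }
  obtain ⟨g, _, h1, h2⟩ := HS.exists_inv' (N := fun _ => G)
    (fun _ => MonoidHom.id G) hp (fun i j _ x hx => hx) (fun x hx => ⟨0, hx⟩) ⊤ f
    ⟨fun x _ => trivial, 0, fun i _ => ht f⟩ hne
  exact ⟨g, h1, h2⟩

theorem of_mem_evSub {N : ℕ → Type u} [∀ i, Group (N i)] [∀ i, LinearOrder (N i)]
    [∀ i, MulLeftStrictMono (N i)] [∀ i, MulRightStrictMono (N i)]
    (p : ∀ i, G →* N i) (hp : ∀ i, Monotone (p i)) (B : Subgroup G) (z : MonoidAlgebra k G)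
    (hz : ∀ x ∈ z.coeff.support, x ∈ B) : HS.of z ∈ evSub k B p hp :=
  ⟨fun x hx => hz x (by simpa using hx), 0, fun i _ => of_mem_tameSub (p i) (hp i) z⟩

theorem evSub_mono {N : ℕ → Type u} [∀ i, Group (N i)] [∀ i, LinearOrder (N i)]
    [∀ i, MulLeftStrictMono (N i)] [∀ i, MulRightStrictMono (N i)]
    (p : ∀ i, G →* N i) (hp : ∀ i, Monotone (p i)) (B : Subgroup G) {f : HS k G}
    (hf : f ∈ evSub k B p hp) : f ∈ evSub k (⊤ : Subgroup G) p hp :=
  ⟨fun _ _ => trivial, hf.2⟩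

/-- **The core of the inertness theorem.** -/
theorem core 
    {N : ℕ → Type u} [∀ i, Group (N i)] [∀ i, LinearOrder (N i)]
    [∀ i, MulLeftStrictMono (N i)] [∀ i, MulRightStrictMono (N i)]
    (p : ∀ i, G →* N i) (hp : ∀ i, Monotone (p i))
    (hker : ∀ i j, i ≤ j → ∀ x, p j x = 1 → p i x = 1)
    (hsep : ∀ x, x ≠ 1 → ∃ i, p i x ≠ 1)
    (hore : ∀ i, LeftOre (MonoidAlgebra k (N i)))
    (A B C : Subgroup G) (hC : C = A ⊓ B) {r m n : ℕ} (hmn : n < m)
    (a : Fin r → G) (ha : Subgroup.closure (Set.range a) = A)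
    {Y : Type v} (c : Y → G) (hc : Function.Injective (FreeGroup.lift c))
    (hcC : Subgroup.closure (Set.range c) = C) (y : Fin m → Y) (hy : Function.Injective y)
    (W : Fin m → Fin n → MonoidAlgebra k G)
    (hWB : ∀ i j, ∀ x ∈ (W i j).coeff.support, x ∈ B)
    (α : Fin m → Fin r → MonoidAlgebra k G)
    (hαA : ∀ i j, ∀ x ∈ (α i j).coeff.support, x ∈ A)
    (hα : ∀ i, gl k (c (y i)) - 1 = ∑ j, α i j * (gl k (a j) - 1))
    (hrel : ∀ (i : ℕ) (u : Fin m → MonoidAlgebra k (N i)),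
      (∀ j, ∑ l, u l * MonoidAlgebra.mapDomainRingHom k (p i) (W l j) = 0) →
      ∀ j, ∑ l, u l * MonoidAlgebra.mapDomainRingHom k (p i) (α l j) = 0) : False := by
  obtain ⟨f, hf0, hfB, hfW⟩ := Helper56.PC.linalg (evSub k B p hp) HS.one_ne_zero
    (fun x hx hx0 => HS.exists_inv' p hp hker hsep B x hx hx0) hmn
    (fun i j => HS.of (W i j)) (fun i j => of_mem_evSub p hp B _ (hWB i j))
  -- the products with `α` vanish
  have key : ∀ j, ∑ i, f i * HS.of (α i j) = 0 := by
    intro j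
    by_contra hne
    set z : HS k G := ∑ i, f i * HS.of (α i j) with hz
    have hzT : z ∈ evSub k (⊤ : Subgroup G) p hp := by
      rw [hz]
      exact sum_mem fun i _ => mul_mem (evSub_mono p hp B (hfB i))
        (of_mem_evSub p hp ⊤ _ fun _ _ => trivial)
    obtain ⟨g, hgT, hzg, hgz⟩ := HS.exists_inv' p hp hker hsep ⊤ z hzT hne
    -- a common index
    obtain ⟨i₁, hi₁⟩ := hzT.2
    obtain ⟨i₂, hi₂⟩ := hgT.2
    choose e he using fun l => (hfB l).2
    obtain ⟨i₃, hi₃⟩ : ∃ i₃, ∀ l, e l ≤ i₃ := ⟨Finset.univ.sup e, fun l =>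
      Finset.le_sup (Finset.mem_univ l)⟩
    set i := max i₁ (max i₂ i₃) with hi
    have h1 : z ∈ tameSub k (p i) (hp i) := hi₁ i (le_max_left _ _)
    have h2 : g ∈ tameSub k (p i) (hp i) := hi₂ i (le_trans (le_max_left _ _) (le_max_right _ _))
    have h3 : ∀ l, f l ∈ tameSub k (p i) (hp i) := fun l => he l i
      (le_trans (hi₃ l) (le_trans (le_max_right _ _) (le_max_right _ _)))
    set P := tamePush k (p i) (hp i) with hP
    set F : Fin m → tameSub k (p i) (hp i) := fun l => ⟨f l, h3 l⟩ with hF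
    have hof : ∀ w : MonoidAlgebra k G, P ⟨HS.of w, of_mem_tameSub (p i) (hp i) w⟩ =
        HS.of (MonoidAlgebra.mapDomainRingHom k (p i) w) := fun w => tamePush_of (p i) (hp i) w
    have hzne : P ⟨z, h1⟩ ≠ 0 := by
      intro h0
      have h4 : (⟨z, h1⟩ : tameSub k (p i) (hp i)) * ⟨g, h2⟩ = 1 := Subtype.ext hzg
      have h5 : P ⟨z, h1⟩ * P ⟨g, h2⟩ = 1 := by rw [← map_mul, h4, map_one]
      rw [h0, zero_mul] at h5
      exact HS.one_ne_zero h5.symm
    have hsum : ∀ (w : Fin m → MonoidAlgebra k G) (s : HS k G) (hs : s ∈ tameSub k (p i) (hp i)),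
        s = ∑ l, f l * HS.of (w l) →
        P ⟨s, hs⟩ = ∑ l, P (F l) * HS.of (MonoidAlgebra.mapDomainRingHom k (p i) (w l)) := by
      intro w s hs hsw
      have h6 : (⟨s, hs⟩ : tameSub k (p i) (hp i)) =
          ∑ l, F l * ⟨HS.of (w l), of_mem_tameSub (p i) (hp i) (w l)⟩ := by
        apply Subtype.ext
        rw [AddSubmonoidClass.coe_finsetSum]
        exact hsw
      rw [h6, map_sum]
      apply Finset.sum_congr rfl
      intro l _
      rw [map_mul, hof]
    obtain ⟨u, hu1, hu2⟩ := Helper93.PC.orelin (HS.of : MonoidAlgebra k (N i) →+* HS k (N i)) HS.of_injective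
      HS.one_ne_zero (fun x hx => HS.exists_inv x hx) (hore i)
      (fun l j' => MonoidAlgebra.mapDomainRingHom k (p i) (W l j'))
      (fun l => MonoidAlgebra.mapDomainRingHom k (p i) (α l j)) (fun l => P (F l))
      (fun j' => by
        rw [← hsum (fun l => W l j') 0 (zero_mem _) (hfW j').symm]
        exact map_zero P)
      (by
        rw [← hsum (fun l => α l j) z h1 hz]
        exact hzne)
    exact hu2 (hrel i u hu1 j)
  -- conclusion by S34
  have := Helper86.PK.ps34 A B C hC a ha c hc hcC y hy (fun M _ => Helper19.PC.fder Y M) α hαA hα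
    (fun i => (f i).fn) (fun i x hx => (hfB i).1 x hx) (by
      intro j x
      have h7 := congrFun (congrArg HS.fn (key j)) x
      rw [HS.fn_sum, Finset.sum_apply, HS.fn_zero] at h7
      refine Eq.trans (Finset.sum_congr rfl fun i _ => ?_) h7
      rw [HS.fn_mul_of])
  apply hf0
  funext i
  exact HS.ext (this i)

end

end Pool.Agent.Helper11.PK
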