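import Mathlib
import Pool.Agent.Helper28.Para.Defs
import Pool.Agent.Helper11.PC.Defs

/-! # Inertness and coherence for parafree groups, mod p version: definitions (project PK)

The same notions as in `Helper11/PC/Defs.lean` over an arbitrary field `k : Type`.
`lcs G n = γ_{n+1}(G)`, `IsParafreeOn X G` come from `Helper28.Para.Defs`. -/

namespace Pool.Agent.Helper11.PK

universe u v w

open MonoidAlgebra

section

variable {k : Type} [Field k]

/-- Right multiplication of an arbitrary function `G → k` by an element of the group algebra. -/
noncomputable def rmul {G : Type u} [Group G] (f : G → k) (z : MonoidAlgebra k G) : G → k :=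
  fun x => z.coeff.sum fun a q => f (x * a⁻¹) * q

open Classical in
/-- The function with value `q` at `g` and `0` elsewhere. -/
noncomputable def mono {G : Type u} (g : G) (q : k) : G → k := fun x => if x = g then q else 0

/-- Convolution of functions on a group (`0` at points where the sum is not finite). -/
noncomputable def conv {G : Type u} [Group G] (f g : G → k) : G → k :=
  fun x => ∑ᶠ a : G, f a * g (a⁻¹ * x)

/-- Push-forward of a function along a map with finite fibres on the support. -/
noncomputable def push {G : Type u} {N : Type v} (p : G → N) (f : G → k) : N → k :=
  fun y => ∑ᶠ x : {x : G // p x = y}, f x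

/-- `f` is tame for `p`: each fibre of `p` meets the support of `f` in a finite set and the image
of the support is (partially) well ordered. -/
structure Tame {G : Type u} {N : Type v} [Preorder N] (p : G → N) (f : G → k) : Prop where
  fib : ∀ y : N, {x : G | p x = y ∧ f x ≠ 0}.Finite
  pwo : (p '' Function.support f).IsPWO

variable (k)

/-- `gl k g` is the group element `g` in the group algebra. -/
noncomputable abbrev gl {G : Type u} [Group G] (g : G) : MonoidAlgebra k G :=
  MonoidAlgebra.single g (1 : k)

/-- The augmentation of the group algebra. -/
noncomputable def augHom (N : Type u) [Group N] : MonoidAlgebra k N →ₐ[k] k :=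
  MonoidAlgebra.lift k k N (1 : N →* k)

/-- The augmentation ideal (a two-sided ideal). -/
noncomputable def aug (N : Type u) [Group N] : Ideal (MonoidAlgebra k N) :=
  RingHom.ker (augHom k N)

instance (N : Type u) [Group N] : (aug k N).IsTwoSided := by
  unfold aug; infer_instance

variable {k}

/-- `W` is a system of Fox coefficients of `c` with respect to the elements `b j`: for every left
module `M` over the group algebra and every derivation `δ : G → M`, `δ(c) = Σ_j W_j δ(b_j)`. -/
def IsFox {G : Type u} [Group G] {n : ℕ} (b : Fin n → G) (c : G)
    (W : Fin n → MonoidAlgebra k G) : Prop :=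
  ∀ (M : Type u) [AddCommGroup M] [Module (MonoidAlgebra k G) M] (δ : G → M),
    (∀ g h, δ (g * h) = δ g + gl k g • δ h) → δ c = ∑ j, W j • δ (b j)

end

/-- The subgroup `A` of `P` cannot be generated by fewer than `r` elements. -/
def MinGen {P : Type w} [Group P] (A : Subgroup P) (r : ℕ) : Prop :=
  ∀ (m : ℕ) (d : Fin m → P), Subgroup.closure (Set.range d) = A → r ≤ m

/-- The elements `a₁, …, a_r` of `G` are visible for the prime `p`: there is a homomorphism from
`G` to a finite `p`-group for which the image of the subgroup generated by the `a_j` cannot be
generated by fewer than `r` elements. -/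
def Visible (p : ℕ) {G : Type u} [Group G] {r : ℕ} (a : Fin r → G) : Prop :=
  ∃ (P : Type) (_ : Group P) (_ : Finite P) (_ : IsPGroup p P) (π : G →* P),
    MinGen ((Subgroup.closure (Set.range a)).map π) r

end Pool.Agent.Helper11.PK
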