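import Pool.Agent.Helper11.PK.Defs

/-! # Project PK (MP_1f931d_al): packets of the mod p version

Each packet is independent; a packet may assume the statement of another packet as a hypothesis.
Write your proof in `Pool/Agent/HelperNN/PK/<NAME>.lean`, importing `Pool.Agent.Helper11.PK.Defs`
(not this file), with exactly the statement given here (and the extra hypotheses allowed). -/

namespace Pool.Agent.Helper11.PK

universe u v w

open MonoidAlgebra Pool.Agent.Helper28.Para Pool.Agent.Helper11.PC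
open scoped commutatorElement

/-- **NILP.**  The augmentation ideal of the mod `p` group algebra of a finite `p`-group is
nilpotent.  Proof.  Let `ω = aug`, `k = ZMod p`; the algebra `kQ` is finite.  Claim: if the
ideal `I = ω^j` is not `0` then `ω^{j+1} = ω * ω^j ≠ ω^j`.  The group `Q` acts on the finite
`𝔽_p`-vector space `V = I →ₗ[k] k` (dual) by `(g f)(x) = f(g⁻¹ x)`; `|V|` is a power of `p`, `> 1`,
so by `IsPGroup.card_modEq_card_fixedPoints` the number of fixed points is divisible by `p`, and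
there is a fixed `f ≠ 0`.  Then `f((g - 1) x) = 0` for all `g ∈ Q`, `x ∈ I`, and `ω` is spanned by
the `g - 1`, so `f` vanishes on `ω I`; hence `ω I ≠ I`.  As `kQ` is finite the descending chain
`ω^j` reaches `⊥`. -/
theorem NILP (p : ℕ) [Fact p.Prime] {Q : Type u} [Group Q] [Finite Q] (hQ : IsPGroup p Q) :
    ∃ q : ℕ, (aug (ZMod p) Q) ^ q = ⊥ := sorry

/-- **RESP.**  Residual finiteness `p` of groups with a truncated integral Magnus system.
Proof.  For `g ∈ S` choose a word `v_g`, `|v_g| ≤ D`, with `c g v_g ≠ c 1 v_g` (`sep`).  Let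
`X0` be a finite set of letters containing all letters of all `v_g` and `e` such that `p^e` does
not divide any of the integers `c g v_g - c 1 v_g` (nonzero).  Let `V` be the finite type of
words `v` over `X0` with `|v| ≤ D`.  For `g ∈ Γ` let `M_g` be the `V × V` matrix over
`ZMod (p^e)` with entry `c g w mod p^e` at `(u, u ++ w)` and `0` at other places.  By `mul`,
`M_{gh} = M_g M_h` (the intermediate words are `u ++ take i w`), `M_1 = 1` (`c 1 [] = 1`,
`c 1 w = 0` for `w ≠ []`, `|w| ≤ D`: from `mul` for `1 * 1` by induction on `|w|`).  So `g ↦ M_g` is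
a homomorphism to the units of the matrix ring; its image is contained in the group of all
matrices `M` with `M(u,u) = 1`, `M(u,v) = 0` unless `u = v` or `|u| < |v|`, which is finite
of order a power of `p` (`(p^e)^{number of pairs}`), so a `p`-group (`IsPGroup.of_card`).  Let
`K` be the kernel; `Γ/K` embeds in it.  `g ∈ S` is not in `K`, since `M_g([], v_g) ≠ M_1([], v_g)`. -/
theorem RESP {X : Type v} {Γ : Type u} [Group Γ] {D : ℕ} {c : Γ → List X → ℚ}
    (h : MagnusSys X (fun k => k ≤ D) Γ c) (hint : ∀ g v, v.length ≤ D → ∃ z : ℤ, c g v = z)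
    (p : ℕ) [Fact p.Prime] (S : Finset Γ) (hS : ∀ g ∈ S, g ≠ 1) :
    ∃ (K : Subgroup Γ) (_ : K.Normal), Finite (Γ ⧸ K) ∧ IsPGroup p (Γ ⧸ K) ∧
      ∀ g ∈ S, g ∉ K := sorry

/-- **EXTP.**  Homomorphisms of subgroups of finite `p`-power index to finite `p`-groups.  `s` is a
homomorphism as in `Helper28.Para.exists_good_hom`.
Proof.  (*) Let `L` be a group (`L = G` or `L = FreeGroup X`), `π' : L → P` a homomorphism to a
finite `p`-group, `ker π' ≤ L₀ ≤ L`, `θ : L₀ → E` a homomorphism.  Then there is `n` with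
`lcs L n ≤ L₀` and `θ = 1` on `lcs L n`.  Let `L₁ = ker π'` (normal, finite index), let `M` be
the kernel of `θ` restricted to `L₁` (as a subgroup of `L`, finite index), `K` its normal core in
`L` (finite index).  If `p^e` is the exponent-like bound of `E` (`x^{p^e} = 1` for all `x ∈ E`) and
`w ∈ L₁` then `w^{p^e} ∈ K`: for `t ∈ L`, `t⁻¹ w^{p^e} t = (t⁻¹ w t)^{p^e}` with `t⁻¹ w t ∈ L₁`.
So `L/K` is a finite `p`-group, hence nilpotent and `lcs L n ≤ K ≤ L₁` for some `n`, on which
`θ = 1`.
First claim: let `ψ` be given; apply (*) to `L = FreeGroup X`, `π' = π ∘ s`, `θ = ψ`, and to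
`L = G`, `θ` trivial; take `n` for both (`lcs` is antitone).  For `g ∈ G0` choose `w` with
`(s w)⁻¹ g ∈ lcs G n` (hs2); then `s w ∈ G0` as `lcs G n ≤ G0`; put `ψ'(g) = ψ(w)`.  If `w'` is
another choice then `s(w⁻¹w') ∈ lcs G n`, so `w⁻¹w' ∈ lcs F n` (hs1) and `ψ(w⁻¹w') = 1`.  So
`ψ'` is well defined, `ψ'(s w) = ψ(w)`, and a homomorphism (`lcs G n` is normal).
Second claim: by (*) for `L = G` and `ψ₁`, `ψ₂`: both vanish on `lcs G n ≤ G0` for some `n`; each
`g ∈ G0` is `s(w) z` with `z ∈ lcs G n`, `w ∈ G0.comap s`. -/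
theorem EXTP {X : Type v} {G : Type u} [Group G] (s : FreeGroup X →* G)
    (hs1 : ∀ n w, s w ∈ lcs G n → w ∈ lcs (FreeGroup X) n)
    (hs2 : ∀ n g, ∃ w, (s w)⁻¹ * g ∈ lcs G n)
    (p : ℕ) [Fact p.Prime] {P : Type w} [Group P] [Finite P] (hP : IsPGroup p P) (π : G →* P)
    (G0 : Subgroup G) (hG0 : π.ker ≤ G0) {E : Type u} [Group E] [Finite E] (hE : IsPGroup p E) :
    (∀ ψ : (G0.comap s) →* E, ∃ ψ' : G0 →* E, ∀ w : (G0.comap s), ψ' ⟨s w, w.2⟩ = ψ w) ∧
    (∀ ψ₁ ψ₂ : G0 →* E, (∀ w : (G0.comap s), ψ₁ ⟨s w, w.2⟩ = ψ₂ ⟨s w, w.2⟩) → ψ₁ = ψ₂) := sorry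

/-- **LIFTP.**  Embedding problems: homomorphisms from `G0` to finite `p`-groups lift through
surjections of finite `p`-groups.  (Assume EXTP as a hypothesis, for this `s`, `p`, `π`, `G0` and
all `E : Type u`.)  Proof.  `F0 = G0.comap s` is a free group (Nielsen-Schreier,
`subgroupIsFreeOfIsFree`), so `φ ∘ s : F0 → Q₁` lifts to `ψ : F0 → Q₂` with `θ ∘ ψ = φ ∘ s`
(choose preimages of the images of a basis).  By EXTP `ψ` extends to `ψ' : G0 → Q₂`;
`θ ∘ ψ'` and `φ` agree on `s(F0)` so they are equal (second part of EXTP). -/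
theorem LIFTP {X : Type v} {G : Type u} [Group G] (s : FreeGroup X →* G) (p : ℕ)
    (G0 : Subgroup G)
    (hext : ∀ {E : Type u} [Group E] [Finite E] (_ : IsPGroup p E),
      (∀ ψ : (G0.comap s) →* E, ∃ ψ' : G0 →* E, ∀ w : (G0.comap s), ψ' ⟨s w, w.2⟩ = ψ w) ∧
      (∀ ψ₁ ψ₂ : G0 →* E, (∀ w : (G0.comap s), ψ₁ ⟨s w, w.2⟩ = ψ₂ ⟨s w, w.2⟩) → ψ₁ = ψ₂))
    {Q₁ Q₂ : Type u} [Group Q₁] [Group Q₂] [Finite Q₁] [Finite Q₂] (h1 : IsPGroup p Q₁)
    (h2 : IsPGroup p Q₂) (θ : Q₂ →* Q₁) (hθ : Function.Surjective θ) (φ : G0 →* Q₁) :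
    ∃ φ' : G0 →* Q₂, θ.comp φ' = φ := sorry

/-- **DERP.**  Derivations into mod `p` group algebras of finite `p`-groups.  `hlift` is the lifting
property LIFTP for the group `L` (= `G0`).  Proof.  Let `k = ZMod p`, `M = kQ` (finite) with `Q`
acting by left multiplication, `E = M ⋊ Q` (e.g. `Multiplicative M ⋊[φ] Q`), a finite group of
order a power of `p`; `θ : E → Multiplicative k × Q`, `(m, q) ↦ (aug m, q)` is a surjective
homomorphism of finite `p`-groups.  (All groups must be in `Type u`: use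
`ULift (Multiplicative (ZMod p))`.)  Lift `g ↦ (χ g, ρ g)` to a homomorphism `L → E`; its
second component is `ρ`, its first component is `δ`. -/
theorem DERP (p : ℕ) [Fact p.Prime] {L : Type u} [Group L]
    (hlift : ∀ {Q₁ Q₂ : Type u} [Group Q₁] [Group Q₂] [Finite Q₁] [Finite Q₂]
      (_ : IsPGroup p Q₁) (_ : IsPGroup p Q₂) (θ : Q₂ →* Q₁) (_ : Function.Surjective θ)
      (φ : L →* Q₁), ∃ φ' : L →* Q₂, θ.comp φ' = φ)
    {Q : Type u} [Group Q] [Finite Q] (hQ : IsPGroup p Q) (ρ : L →* Q) (χ : L → ZMod p)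
    (hχ : ∀ g h, χ (g * h) = χ g + χ h) :
    ∃ δ : L → MonoidAlgebra (ZMod p) Q,
      (∀ g h, δ (g * h) = δ g + gl (ZMod p) (ρ g) * δ h) ∧
      ∀ g, augHom (ZMod p) Q (δ g) = χ g := sorry

/-- **BURN.**  (Burnside basis theorem.)  Proof.  Let `P` be generated by `x₁, …, x_r` and not
by fewer than `r` elements.  Fix `l` and let `H` be generated by the `x_j`, `j ≠ l` (so by `r - 1`
elements); `H ≠ ⊤`.  Let `M ≥ H` be a maximal subgroup (coatom); in a finite `p`-group it is normal
of index `p` (nilpotent groups: `normal_of_isCoatom`/`NormalizerCondition`; `P/M` is a simple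
`p`-group, so cyclic of order `p`).  So there is a surjection `χ : P → P/M ≃ ℤ/p` with
`χ(x_j) = 0` for `j ≠ l`; `χ(x_l) ≠ 0` since the `x_j` generate `P`; divide by `χ(x_l)`. -/
theorem BURN (p : ℕ) [Fact p.Prime] {P : Type w} [Group P] [Finite P] (hP : IsPGroup p P) {r : ℕ}
    (x : Fin r → P) (hx : Subgroup.closure (Set.range x) = ⊤) (hr : MinGen (⊤ : Subgroup P) r)
    (l : Fin r) :
    ∃ χ : P → ZMod p, (∀ g h, χ (g * h) = χ g + χ h) ∧
      ∀ j, χ (x j) = if j = l then 1 else 0 := sorry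

/-- **FREEP.**  `L` is a group with the lifting property (as in DERP), `a j` elements of it and
`χ_l : L → ZMod p` homomorphisms with `χ_l(a_j) = δ_jl`; then the `a_j` freely generate a free
group.  `hres`: the free group `F_r = FreeGroup (Fin r)` is residually a finite `p`-group.
Proof.  Let `w ∈ F_r`, `w ≠ 1`; choose a finite `p`-group `Q` and `ψ : F_r → Q` with `ψ(w) ≠ 1`.
Put `Q' = Q × (ℤ/p)^r` and let `K` be the intersection of the kernels of all homomorphisms
`F_r → Q'` (there are `|Q'|^r` many) and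
`E = F_r/K`: it embeds in a finite product of copies of `Q'`, so it is a finite `p`-group, and
each homomorphism `F_r → E` factors through `E` (it is trivial on `K`, because its components are
homomorphisms `F_r → Q'`).  `w ∉ K`.  The homomorphism `F_r → (ℤ/p)^r`, `x_j ↦ e_j`, induces
`θ : E → (ℤ/p)^r`, surjective, whose kernel is contained in the Frattini subgroup of `E`: a proper
subgroup of `E` is contained in a normal subgroup of index `p`, i.e. in the kernel of a nonzero
homomorphism `E → ℤ/p`, and these all factor through `θ` (`F_r → ℤ/p` factors through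
`(ℤ/p)^r`).  Lift `(χ_1,…,χ_r) : L → (ℤ/p)^r` through `θ` to `Ψ : L → E`.  The elements
`Ψ(a_j)` are mapped by `θ` to `e_j`, so they generate `E` (if not, they are in the kernel of a
nonzero `E → ℤ/p` factoring through `θ`).  Let `η : E → E` be the endomorphism with
`x̄_j ↦ Ψ(a_j)` (exists as `F_r → E` factors through `E`); it is surjective, so bijective.  Now
`Ψ(w(a)) = η(w̄) ≠ 1` since `w̄ ≠ 1`; so `w(a) ≠ 1`.  (Use `ULift` to put `E` and `(ℤ/p)^r` in `Type u`.) -/
theorem FREEP (p : ℕ) [Fact p.Prime] {L : Type u} [Group L]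
    (hlift : ∀ {Q₁ Q₂ : Type u} [Group Q₁] [Group Q₂] [Finite Q₁] [Finite Q₂]
      (_ : IsPGroup p Q₁) (_ : IsPGroup p Q₂) (θ : Q₂ →* Q₁) (_ : Function.Surjective θ)
      (φ : L →* Q₁), ∃ φ' : L →* Q₂, θ.comp φ' = φ) {r : ℕ}
    (hres : ∀ w : FreeGroup (Fin r), w ≠ 1 → ∃ (Q : Type) (_ : Group Q) (_ : Finite Q)
      (_ : IsPGroup p Q) (ψ : FreeGroup (Fin r) →* Q), ψ w ≠ 1)
    (a : Fin r → L) (χ : Fin r → L → ZMod p) (hχ : ∀ l g h, χ l (g * h) = χ l g + χ l h)
    (ha : ∀ l j, χ l (a j) = if j = l then 1 else 0) :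
    Function.Injective (FreeGroup.lift a : FreeGroup (Fin r) →* L) := sorry

/-- **SCHR.**  (Schreier's bound.)  Proof.  `G` acts on the `d = H.index` right cosets `Hx` from
the right, transitively, so (induction on the distance from `H` in the Schreier graph) there is
a transversal `t : {cosets} → G`, `t(H) = 1`, such that each coset `κ ≠ H` has a parent `κ'`
(closer to `H`) and an index `j` with `t(κ) = t(κ') b_j`, `κ = κ' b_j`, or
`t(κ) = t(κ') b_j⁻¹`, `κ' = κ b_j`.  By Schreier's lemma `H` is generated by the `d n` elements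
`γ(κ, j) = t(κ) b_j t(κ b_j)⁻¹` (`Subgroup.closure_mul_image_eq` etc. in
`Mathlib/GroupTheory/Schreier.lean`, or a direct proof).  To `κ ≠ H` associate the pair
`(κ', j)` in the first case and `(κ, j)` in the second; then `γ(pair) = 1`, and different `κ` give
different pairs (if `κ₁ ≠ κ₂` give the same pair, one is of the first kind and the other of the
second, and each would be the parent of the other).  So at most
`d n - (d - 1) = 1 + d (n - 1)` of the `γ` are nontrivial. -/
theorem SCHR {G : Type u} [Group G] {n : ℕ} (hn : 1 ≤ n) (b : Fin n → G)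
    (hb : Subgroup.closure (Set.range b) = ⊤) (H : Subgroup G) [H.FiniteIndex] :
    ∃ c : Fin (1 + H.index * (n - 1)) → G, Subgroup.closure (Set.range c) = H := sorry

/-! ## Ports of packets of project PC from `ℚ` to an arbitrary field `k : Type`

The proofs are the same as for `ℚ` (see the docstrings in `Helper11/PC/Goals.lean` and the files of
the authors); replace `ℚ` by `k`. -/

section ports

variable {k : Type} [Field k]
open scoped Pointwise

/-- **PFOX** (port of `Helper3/PC/FOX.lean`). -/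
theorem PFOX {G : Type u} [Group G] {n : ℕ} (b : Fin n → G) (c : G)
    (hc : c ∈ Subgroup.closure (Set.range b)) :
    ∃ W : Fin n → MonoidAlgebra k G, IsFox b c W ∧
      ∀ j, ∀ x ∈ (W j).coeff.support, x ∈ Subgroup.closure (Set.range b) := sorry

/-- **PS34** (port of `Helper61/PC/S34.lean`). -/
theorem PS34 {G : Type u} [Group G] (A B C : Subgroup G) (hC : C = A ⊓ B) {r m : ℕ}
    (a : Fin r → G) (ha : Subgroup.closure (Set.range a) = A)
    {Y : Type v} (c : Y → G) (hc : Function.Injective (FreeGroup.lift c))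
    (hcC : Subgroup.closure (Set.range c) = C) (y : Fin m → Y) (hy : Function.Injective y)
    (hder : ∀ (M : Type u) [AddCommGroup M], FreeDer Y M)
    (α : Fin m → Fin r → MonoidAlgebra k G)
    (hαA : ∀ i j, ∀ x ∈ (α i j).coeff.support, x ∈ A)
    (hα : ∀ i, gl k (c (y i)) - 1 = ∑ j, α i j * (gl k (a j) - 1))
    (f : Fin m → G → k) (hfB : ∀ i x, f i x ≠ 0 → x ∈ B)
    (hf : ∀ j x, ∑ i, rmul (f i) (α i j) x = 0) : ∀ i, f i = 0 := sorry

/-- **POREG** (port of `Helper40/PC/OREG.lean`). -/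
theorem POREG {N : Type u} [Group N] [NoZeroDivisors (MonoidAlgebra k N)] (hgr : PolyGrowth N) :
    LeftOre (MonoidAlgebra k N) := sorry

variable {G : Type u} [Group G] [LinearOrder G] [MulLeftStrictMono G] [MulRightStrictMono G]

/-- **PHSB** (port of `Helper70/PC/HSB.lean`). -/
theorem PHSB {f g h : G → k} (hf : (Function.support f).IsPWO) (hg : (Function.support g).IsPWO)
    (hh : (Function.support h).IsPWO) : conv (conv f g) h = conv f (conv g h) := sorry

/-- **PGEO** (port of GEO; the statements of NEU and HSA may be used: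
`Helper83.PC.neu`, `Helper31.PC.hsa`). -/
theorem PGEO {y : G → k} (hy : (Function.support y).IsPWO) (h1 : ∀ x, y x ≠ 0 → 1 < x) :
    ∃ z : G → k, (∀ x, z x ≠ 0 → ∃ l : List G, (∀ t ∈ l, y t ≠ 0) ∧ l.prod = x) ∧
      conv (fun x => mono 1 1 x - y x) z = mono 1 1 ∧
      conv z (fun x => mono 1 1 x - y x) = mono 1 1 := sorry

/-- **PTIN** (port of `Helper38/PC/TIN.lean`; the statement of PGEO for all ordered groups may
be used as a hypothesis). -/
theorem PTIN {f : G → k} (hf : (Function.support f).IsPWO) (hne : f ≠ 0)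
    {N : ℕ → Type u} [∀ i, Group (N i)] [∀ i, LinearOrder (N i)]
    [∀ i, MulLeftStrictMono (N i)] [∀ i, MulRightStrictMono (N i)]
    (p : ∀ i, G →* N i) (hp : ∀ i, Monotone (p i))
    (hker : ∀ i j, i ≤ j → ∀ x, p j x = 1 → p i x = 1)
    (hsep : ∀ x, x ≠ 1 → ∃ i, p i x ≠ 1)
    (hft : ∃ i₀, ∀ i, i₀ ≤ i → Tame (p i) f) :
    ∃ g : G → k, (Function.support g).IsPWO ∧ conv f g = mono 1 1 ∧ conv g f = mono 1 1 ∧
      (∀ B : Subgroup G, (∀ x, f x ≠ 0 → x ∈ B) → ∀ x, g x ≠ 0 → x ∈ B) ∧
      ∃ i₁, ∀ i, i₁ ≤ i → Tame (p i) g := sorry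

/-- **PTAM** (port of `Helper37/PC/TAM.lean`). -/
theorem PTAM {N : Type v} [Group N] [LinearOrder N] [MulLeftStrictMono N] [MulRightStrictMono N]
    (p : G →* N) (hp : Monotone p) {f g : G → k} (hf : (Function.support f).IsPWO)
    (hg : (Function.support g).IsPWO) (hft : Tame p f) (hgt : Tame p g) :
    Tame p (conv f g) ∧ push p (conv f g) = conv (push p f) (push p g) := sorry

end ports

end Pool.Agent.Helper11.PK
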