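import Pool.Agent.Helper11.PK.HSBasic
import Pool.Agent.Helper31.PC.HSA
import Pool.Agent.Helper31.PK.PHSB

/-! # The ring of Malcev–Neumann series of an ordered group -/

set_option linter.unusedSectionVars false

namespace Pool.Agent.Helper11.PK

universe u v w

open MonoidAlgebra Helper31.PC Helper31.PK
open scoped Pointwise

section series

variable (k : Type) [Field k] (G : Type u) [Group G] [LinearOrder G]

/-- Functions with partially well ordered support, an additive group. -/
def hsSub : AddSubgroup (G → k) where
  carrier := {f | (Function.support f).IsPWO}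
  zero_mem' := by
    change (Function.support (0 : G → k)).IsPWO
    rw [Function.support_zero]; exact Set.isPWO_empty
  add_mem' := fun {f g} hf hg => (hf.union hg).mono (Function.support_add f g)
  neg_mem' := fun {f} hf => by
    change (Function.support (-f)).IsPWO
    rw [Function.support_neg]; exact hf

/-- Malcev–Neumann series with rational coefficients. -/
def HS : Type u := hsSub k G

noncomputable instance : AddCommGroup (HS k G) := inferInstanceAs (AddCommGroup (hsSub k G))

variable {k G}

/-- The coefficient function. -/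
def HS.fn (f : HS k G) : G → k := f.1

theorem HS.pwo (f : HS k G) : (Function.support f.fn).IsPWO := f.2

/-- Build a series. -/
def HS.mk (f : G → k) (hf : (Function.support f).IsPWO) : HS k G := ⟨f, hf⟩

@[simp] theorem HS.fn_mk (f : G → k) (hf : (Function.support f).IsPWO) : (HS.mk f hf).fn = f := rfl

@[ext] theorem HS.ext {f g : HS k G} (h : f.fn = g.fn) : f = g := Subtype.ext h

@[simp] theorem HS.fn_zero : (0 : HS k G).fn = 0 := rfl
@[simp] theorem HS.fn_add (f g : HS k G) : (f + g).fn = f.fn + g.fn := rfl
@[simp] theorem HS.fn_neg (f : HS k G) : (-f).fn = -f.fn := rfl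
@[simp] theorem HS.fn_sub (f g : HS k G) : (f - g).fn = f.fn - g.fn := rfl

theorem HS.fn_sum {ι : Type*} (s : Finset ι) (f : ι → HS k G) :
    (∑ i ∈ s, f i).fn = ∑ i ∈ s, (f i).fn := by
  classical
  induction s using Finset.induction_on with
  | empty => rfl
  | insert a s ha ih => rw [Finset.sum_insert ha, Finset.sum_insert ha, HS.fn_add, ih]

variable [MulLeftStrictMono G] [MulRightStrictMono G]

theorem pwo_mono_fun (g : G) (q : k) : (Function.support (mono g q)).IsPWO := by
  apply (Set.isPWO_singleton g).mono
  intro x hx
  exact mono_ne_zero hx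

theorem pwo_conv {f g : G → k} (hf : (Function.support f).IsPWO)
    (hg : (Function.support g).IsPWO) : (Function.support (conv f g)).IsPWO := by
  apply (hsa hf hg).1.mono
  intro x hx
  obtain ⟨a, ha, hb⟩ := conv_ne_zero hx
  exact ⟨a, ha, a⁻¹ * x, hb, by simp⟩

theorem fin_conv {f g : G → k} (hf : (Function.support f).IsPWO)
    (hg : (Function.support g).IsPWO) (x : G) :
    (Function.support fun a => f a * g (a⁻¹ * x)).Finite := by
  apply ((hsa hf hg).2 x).subset
  intro a ha
  exact ⟨left_ne_zero_of_mul ha, right_ne_zero_of_mul ha⟩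

theorem conv_add {f g h : G → k} (hf : (Function.support f).IsPWO)
    (hg : (Function.support g).IsPWO) (hh : (Function.support h).IsPWO) :
    conv f (g + h) = conv f g + conv f h := by
  funext x
  change (∑ᶠ a, f a * (g (a⁻¹ * x) + h (a⁻¹ * x))) = conv f g x + conv f h x
  unfold conv
  rw [← finsum_add_distrib (fin_conv hf hg x) (fin_conv hf hh x)]
  simp only [mul_add]

theorem add_conv {f g h : G → k} (hf : (Function.support f).IsPWO)
    (hg : (Function.support g).IsPWO) (hh : (Function.support h).IsPWO) :
    conv (f + g) h = conv f h + conv g h := by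
  funext x
  change (∑ᶠ a, (f a + g a) * h (a⁻¹ * x)) = conv f h x + conv g h x
  unfold conv
  rw [← finsum_add_distrib (fin_conv hf hh x) (fin_conv hg hh x)]
  simp only [add_mul]

noncomputable instance : Mul (HS k G) := ⟨fun f g => HS.mk (conv f.fn g.fn) (pwo_conv f.pwo g.pwo)⟩
noncomputable instance : One (HS k G) := ⟨HS.mk (mono 1 1) (pwo_mono_fun 1 1)⟩

@[simp] theorem HS.fn_mul (f g : HS k G) : (f * g).fn = conv f.fn g.fn := rfl
@[simp] theorem HS.fn_one : (1 : HS k G).fn = mono 1 1 := rfl

noncomputable instance : Ring (HS k G) where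
  __ := (inferInstance : AddCommGroup (HS k G))
  mul_assoc f g h := HS.ext (phsb f.pwo g.pwo h.pwo)
  one_mul f := HS.ext (one_conv f.fn)
  mul_one f := HS.ext (conv_one f.fn)
  left_distrib f g h := HS.ext (conv_add f.pwo g.pwo h.pwo)
  right_distrib f g h := HS.ext (add_conv f.pwo g.pwo h.pwo)
  zero_mul f := HS.ext (zero_conv f.fn)
  mul_zero f := HS.ext (conv_zero f.fn)

theorem HS.one_ne_zero : (1 : HS k G) ≠ 0 := by
  intro h
  have := congrFun (congrArg HS.fn h) 1
  rw [HS.fn_one, mono_apply_self] at this
  exact absurd this (by simp)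

theorem pwo_coeff (z : MonoidAlgebra k G) : (Function.support z.coeff).IsPWO := by
  have : Function.support z.coeff = (z.coeff.support : Set G) := by ext; simp
  rw [this]
  exact z.coeff.support.finite_toSet.isPWO

/-- The embedding of the group algebra. -/
noncomputable def HS.of : MonoidAlgebra k G →+* HS k G where
  toFun z := HS.mk z.coeff (pwo_coeff z)
  map_one' := by
    apply HS.ext
    funext x
    rw [HS.fn_one, HS.fn_mk]
    classical
    rw [MonoidAlgebra.one_def, coeff_single, Finsupp.single_apply]
    simp [mono, eq_comm]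
  map_mul' z z' := HS.ext (conv_coeff z z').symm
  map_zero' := by apply HS.ext; rfl
  map_add' z z' := by apply HS.ext; rfl

@[simp] theorem HS.fn_of (z : MonoidAlgebra k G) : (HS.of z).fn = z.coeff := rfl

theorem HS.of_injective : Function.Injective (HS.of : MonoidAlgebra k G →+* HS k G) := by
  intro z z' h
  apply coeff_injective
  exact DFunLike.coe_injective (congrArg HS.fn h)

theorem HS.fn_mul_of (f : HS k G) (z : MonoidAlgebra k G) : (f * HS.of z).fn = rmul f.fn z := by
  rw [HS.fn_mul, HS.fn_of, rmul_eq_conv]

end series

end Pool.Agent.Helper11.PK
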