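import Pool.Agent.Helper11.PK.HSRing
import Pool.Agent.Helper20.PK.PTAM

/-! # Tame series -/

set_option linter.unusedSectionVars false

namespace Pool.Agent.Helper11.PK

universe u v w

open MonoidAlgebra Helper20.PK
open scoped Pointwise

section fns

variable {k : Type} [Field k] {G : Type u} {N : Type v} [Preorder N] {p : G → N}

theorem Tame.fin {f : G → k} (hf : Tame p f) (y : N) :
    (Function.support fun x : {x : G // p x = y} => f x).Finite := by
  have := (hf.fib y)
  apply Set.Finite.of_finite_image (f := fun x : {x : G // p x = y} => (x : G))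
  · apply this.subset
    rintro _ ⟨x, hx, rfl⟩
    exact ⟨x.2, hx⟩
  · exact fun a _ b _ h => Subtype.ext h

theorem Tame.add {f g : G → k} (hf : Tame p f) (hg : Tame p g) : Tame p (f + g) where
  fib y := by
    apply ((hf.fib y).union (hg.fib y)).subset
    rintro x ⟨hx, hxx⟩
    by_cases h : f x = 0
    · right
      refine ⟨hx, ?_⟩
      intro h'
      apply hxx
      simp [h, h']
    · left; exact ⟨hx, h⟩
  pwo := by
    apply (hf.pwo.union hg.pwo).mono
    rw [← Set.image_union]
    exact Set.image_mono (Function.support_add f g)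

theorem Tame.neg {f : G → k} (hf : Tame p f) : Tame p (-f) where
  fib y := by
    apply (hf.fib y).subset
    rintro x ⟨hx, hxx⟩
    refine ⟨hx, ?_⟩
    intro h
    apply hxx
    simp [h]
  pwo := by
    rw [Function.support_neg]; exact hf.pwo

theorem Tame.of_finite {f : G → k} (hf : (Function.support f).Finite) : Tame p f where
  fib _ := hf.subset fun _ hx => hx.2
  pwo := (hf.image p).isPWO

theorem push_add {f g : G → k} (hf : Tame p f) (hg : Tame p g) :
    push p (f + g) = push p f + push p g := by
  funext y
  unfold push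
  rw [Pi.add_apply, ← finsum_add_distrib (hf.fin y) (hg.fin y)]
  rfl

omit [Preorder N] in
theorem push_ne_zero {f : G → k} {y : N} (h : push p f y ≠ 0) : ∃ x, p x = y ∧ f x ≠ 0 := by
  by_contra hcon
  push Not at hcon
  apply h
  unfold push
  rw [finsum_eq_zero_of_forall_eq_zero]
  intro x
  exact hcon x x.2

theorem Tame.pwo_push {f : G → k} (hf : Tame p f) : (Function.support (push p f)).IsPWO := by
  apply hf.pwo.mono
  intro y hy
  obtain ⟨x, hx, hxx⟩ := push_ne_zero hy
  exact ⟨x, hxx, hx⟩

omit [Preorder N] in
theorem push_mono (g : G) (q : k) : push p (mono g q) = mono (p g) q := by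
  funext y
  unfold push
  by_cases h : y = p g
  · subst h
    rw [finsum_eq_single _ ⟨g, rfl⟩]
    · simp [mono]
    · intro x hx
      apply mono_apply_ne
      intro h
      exact hx (Subtype.ext h)
  · rw [mono_apply_ne _ h]
    apply finsum_eq_zero_of_forall_eq_zero
    intro x
    apply mono_apply_ne
    intro hx
    apply h
    rw [← x.2, hx]

end fns

section group

variable {k : Type} [Field k] {G : Type u} [Group G] {N : Type v} [Group N]

theorem coeff_single_mono (g : G) (q : k) : ((single g q : MonoidAlgebra k G).coeff : G → k) = mono g q := by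
  funext x
  classical
  rw [coeff_single, Finsupp.single_apply]
  simp [mono, eq_comm]

theorem finite_coeff (z : MonoidAlgebra k G) : (Function.support z.coeff).Finite := by
  have : Function.support z.coeff = (z.coeff.support : Set G) := by ext; simp
  rw [this]
  exact z.coeff.support.finite_toSet

theorem push_coeff [Preorder N] (p : G →* N) (z : MonoidAlgebra k G) :
    push p z.coeff = (MonoidAlgebra.mapDomainRingHom k p z).coeff := by
  induction z using MonoidAlgebra.induction_linear with
  | zero =>
    rw [map_zero]
    funext y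
    simp [push]
  | add a b ha hb =>
    rw [map_add, coeff_add, coeff_add, Finsupp.coe_add, Finsupp.coe_add,
      push_add (Tame.of_finite (finite_coeff a)) (Tame.of_finite (finite_coeff b)), ha, hb]
  | single g q =>
    rw [coeff_single_mono, push_mono]
    rw [MonoidAlgebra.mapDomainRingHom_apply, MonoidAlgebra.mapDomain_single, coeff_single_mono]

end group

section tame

variable {k : Type} [Field k] {G : Type u} [Group G] [LinearOrder G] [MulLeftStrictMono G] [MulRightStrictMono G]
  {N : Type v} [Group N] [LinearOrder N] [MulLeftStrictMono N] [MulRightStrictMono N]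

variable (k) in
/-- The ring of tame series. -/
noncomputable def tameSub (p : G →* N) (hp : Monotone p) : Subring (HS k G) where
  carrier := {f | Tame p f.fn}
  mul_mem' := fun {f g} hf hg => (ptam p hp f.pwo g.pwo hf hg).1
  one_mem' := by
    apply Tame.of_finite
    apply (Set.finite_singleton (1 : G)).subset
    intro x hx
    exact mono_ne_zero hx
  add_mem' := fun {f g} hf hg => Tame.add hf hg
  zero_mem' := by
    apply Tame.of_finite
    rw [HS.fn_zero, Function.support_zero]
    exact Set.finite_empty
  neg_mem' := fun {f} hf => Tame.neg hf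

theorem mem_tameSub {p : G →* N} {hp : Monotone p} {f : HS k G} :
    f ∈ tameSub k p hp ↔ Tame p f.fn := Iff.rfl

variable (k) in
/-- Push-forward of tame series. -/
noncomputable def tamePush (p : G →* N) (hp : Monotone p) : tameSub k p hp →+* HS k N where
  toFun f := HS.mk (push p f.1.fn) (Tame.pwo_push f.2)
  map_one' := by
    apply HS.ext
    rw [HS.fn_mk, HS.fn_one]
    change push p (mono 1 1) = _
    rw [push_mono, map_one]
  map_mul' f g := by
    apply HS.ext
    exact (ptam p hp f.1.pwo g.1.pwo f.2 g.2).2
  map_zero' := by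
    apply HS.ext
    funext y
    change push p (0 : G → k) y = 0
    simp [push]
  map_add' f g := HS.ext (push_add f.2 g.2)

theorem of_mem_tameSub (p : G →* N) (hp : Monotone p) (z : MonoidAlgebra k G) :
    HS.of z ∈ tameSub k p hp := Tame.of_finite (finite_coeff z)

theorem tamePush_of (p : G →* N) (hp : Monotone p) (z : MonoidAlgebra k G) :
    tamePush k p hp ⟨HS.of z, of_mem_tameSub p hp z⟩ =
      HS.of (MonoidAlgebra.mapDomainRingHom k p z) :=
  HS.ext (push_coeff p z)

end tame

section seq

variable {k : Type} [Field k] {G : Type u} [Group G] [LinearOrder G] [MulLeftStrictMono G] [MulRightStrictMono G]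
  {N : ℕ → Type v} [∀ i, Group (N i)] [∀ i, LinearOrder (N i)]
  [∀ i, MulLeftStrictMono (N i)] [∀ i, MulRightStrictMono (N i)]

variable (k) in
/-- Series supported in `B` which are tame for all large `i`. -/
noncomputable def evSub (B : Subgroup G) (p : ∀ i, G →* N i) (hp : ∀ i, Monotone (p i)) :
    Subring (HS k G) where
  carrier := {f | (∀ x, f.fn x ≠ 0 → x ∈ B) ∧ ∃ i₀, ∀ i, i₀ ≤ i → f ∈ tameSub k (p i) (hp i)}
  mul_mem' := by
    rintro f g ⟨hf, i₀, hi⟩ ⟨hg, i₁, hj⟩
    refine ⟨fun x hx => ?_, max i₀ i₁, fun i h => mul_mem (hi i (le_trans (le_max_left _ _) h))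
      (hj i (le_trans (le_max_right _ _) h))⟩
    obtain ⟨a, ha, hb⟩ := conv_ne_zero hx
    have := B.mul_mem (hf a ha) (hg _ hb)
    simpa using this
  one_mem' := by
    refine ⟨fun x hx => ?_, 0, fun i _ => one_mem _⟩
    have := mono_ne_zero hx
    rw [this]; exact B.one_mem
  add_mem' := by
    rintro f g ⟨hf, i₀, hi⟩ ⟨hg, i₁, hj⟩
    refine ⟨fun x hx => ?_, max i₀ i₁, fun i h => add_mem (hi i (le_trans (le_max_left _ _) h))
      (hj i (le_trans (le_max_right _ _) h))⟩
    by_cases h : f.fn x = 0
    · apply hg x
      intro h'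
      apply hx
      rw [HS.fn_add, Pi.add_apply, h, h', add_zero]
    · exact hf x h
  zero_mem' := ⟨fun x hx => absurd rfl hx, 0, fun i _ => zero_mem _⟩
  neg_mem' := by
    rintro f ⟨hf, i₀, hi⟩
    refine ⟨fun x hx => hf x ?_, i₀, fun i h => neg_mem (hi i h)⟩
    intro h
    apply hx
    rw [HS.fn_neg, Pi.neg_apply, h, neg_zero]

end seq

end Pool.Agent.Helper11.PK
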