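import Pool.Agent.Helper11.PK.Defs

/-! # Relations over quotients which are residually finite `p`-groups -/

set_option linter.unusedSectionVars false

namespace Pool.Agent.Helper11.PK

universe u v w

open MonoidAlgebra Pool.Agent.Helper28.Para

section

theorem fox_ring {k : Type} [Field k] {G : Type u} [Group G] {R : Type u} [Ring R]
    (φ : MonoidAlgebra k G →+* R) (δ : G → R)
    (hδ : ∀ g h, δ (g * h) = δ g + φ (gl k g) * δ h) {n : ℕ} (b : Fin n → G) (c : G)
    (W : Fin n → MonoidAlgebra k G) (hW : IsFox b c W) : δ c = ∑ j, φ (W j) * δ (b j) := by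
  let inst : Module (MonoidAlgebra k G) R := Module.compHom R φ
  exact hW R δ hδ

theorem fox_sum {k : Type} [Field k] {Γ N Q : Type u} [Group Γ] [Group N] [Group Q]
    (π : Γ →* N) (ρ : N →* Q) {m n : ℕ} (b : Fin n → Γ) (c : Fin m → Γ)
    (W : Fin m → Fin n → MonoidAlgebra k Γ) (hW : ∀ i, IsFox b (c i) (W i))
    (δ : Γ → MonoidAlgebra k Q)
    (hδ : ∀ g h, δ (g * h) = δ g + gl k (ρ (π g)) * δ h)
    (u : Fin m → MonoidAlgebra k N) :
    ∑ i, MonoidAlgebra.mapDomainRingHom k ρ (u i) * δ (c i) =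
      ∑ j, MonoidAlgebra.mapDomainRingHom k ρ
        (∑ i, u i * MonoidAlgebra.mapDomainRingHom k π (W i j)) * δ (b j) := by
  let φ : MonoidAlgebra k Γ →+* MonoidAlgebra k Q :=
    (MonoidAlgebra.mapDomainRingHom k ρ).comp (MonoidAlgebra.mapDomainRingHom k π)
  have h1 : ∀ i, δ (c i) = ∑ j, φ (W i j) * δ (b j) := by
    intro i
    refine fox_ring φ δ (fun g h => ?_) b (c i) (W i) (hW i)
    rw [hδ]
    congr 2
    change _ = MonoidAlgebra.mapDomainRingHom k ρ (MonoidAlgebra.mapDomainRingHom k π (gl k g))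
    have h2 : MonoidAlgebra.mapDomainRingHom k π (gl k g) = gl k (π g) := by
      rw [MonoidAlgebra.mapDomainRingHom_apply, MonoidAlgebra.mapDomain_single]
    rw [h2, MonoidAlgebra.mapDomainRingHom_apply, MonoidAlgebra.mapDomain_single]
  calc ∑ i, MonoidAlgebra.mapDomainRingHom k ρ (u i) * δ (c i)
      = ∑ i, ∑ j, MonoidAlgebra.mapDomainRingHom k ρ (u i) * (φ (W i j) * δ (b j)) := by
        apply Finset.sum_congr rfl
        intro i _
        rw [h1, Finset.mul_sum]
    _ = ∑ j, ∑ i, MonoidAlgebra.mapDomainRingHom k ρ (u i) * (φ (W i j) * δ (b j)) :=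
        Finset.sum_comm
    _ = _ := by
        apply Finset.sum_congr rfl
        intro j _
        rw [map_sum, Finset.sum_mul]
        apply Finset.sum_congr rfl
        intro i _
        rw [← mul_assoc, map_mul]
        rfl

/-- Injectivity on an element whose support is separated. -/
theorem map_ne_zero_of_sep {k : Type} [Field k] {N Q : Type u} [Group N] [Group Q] (ρ : N →* Q)
    (g : MonoidAlgebra k N) (hg : g ≠ 0)
    (hsep : ∀ x ∈ g.coeff.support, ∀ y ∈ g.coeff.support, ρ x = ρ y → x = y) :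
    MonoidAlgebra.mapDomainRingHom k ρ g ≠ 0 := by
  classical
  have hne : g.coeff.support.Nonempty := by
    rw [Finsupp.support_nonempty_iff]
    intro h
    exact hg (coeff_injective h)
  obtain ⟨x, hx⟩ := hne
  intro h0
  have h1 : (MonoidAlgebra.mapDomainRingHom k ρ g).coeff (ρ x) = 0 := by rw [h0]; simp
  rw [MonoidAlgebra.mapDomainRingHom_apply] at h1
  change (Finsupp.mapDomain ρ g.coeff) (ρ x) = 0 at h1
  rw [Finsupp.mapDomain, Finsupp.sum, Finset.sum_apply'] at h1
  rw [Finset.sum_eq_single x] at h1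
  · rw [Finsupp.single_eq_same] at h1
    exact (Finsupp.mem_support_iff.1 hx) h1
  · intro y hy hyx
    rw [Finsupp.single_apply, if_neg]
    intro h
    exact hyx (hsep y hy x hx h)
  · intro h; exact absurd hx h

theorem nil_rel_p (p : ℕ) [Fact p.Prime] {Γ N : Type u} [Group Γ] [Group N] (π : Γ →* N)
    (hnil : ∀ {Q : Type u} [Group Q] [Finite Q] (_ : IsPGroup p Q),
      ∃ q : ℕ, (aug (ZMod p) Q) ^ q = ⊥)
    (hder : ∀ {Q : Type u} [Group Q] [Finite Q] (_ : IsPGroup p Q) (ρ : Γ →* Q)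
      (χ : Γ → ZMod p) (_ : ∀ g h, χ (g * h) = χ g + χ h),
      ∃ δ : Γ → MonoidAlgebra (ZMod p) Q,
        (∀ g h, δ (g * h) = δ g + gl (ZMod p) (ρ g) * δ h) ∧
        ∀ g, augHom (ZMod p) Q (δ g) = χ g)
    (hres : ∀ S : Finset N, (∀ g ∈ S, g ≠ 1) → ∃ (K : Subgroup N) (_ : K.Normal),
      Finite (N ⧸ K) ∧ IsPGroup p (N ⧸ K) ∧ ∀ g ∈ S, g ∉ K)
    {r m n : ℕ} (a : Fin r → Γ) (χ : Fin r → Γ → ZMod p)
    (hχ : ∀ l g h, χ l (g * h) = χ l g + χ l h)
    (ha : ∀ l j, χ l (a j) = if j = l then 1 else 0)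
    (b : Fin n → Γ) (c : Fin m → Γ)
    (W : Fin m → Fin n → MonoidAlgebra (ZMod p) Γ) (hW : ∀ i, IsFox b (c i) (W i))
    (α : Fin m → Fin r → MonoidAlgebra (ZMod p) Γ) (hα : ∀ i, IsFox a (c i) (α i))
    (u : Fin m → MonoidAlgebra (ZMod p) N)
    (hu : ∀ j, ∑ l, u l * MonoidAlgebra.mapDomainRingHom (ZMod p) π (W l j) = 0) :
    ∀ j, ∑ l, u l * MonoidAlgebra.mapDomainRingHom (ZMod p) π (α l j) = 0 := by
  classical
  let g : Fin r → MonoidAlgebra (ZMod p) N :=
    fun j => ∑ l, u l * MonoidAlgebra.mapDomainRingHom (ZMod p) π (α l j)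
  intro j₀
  by_contra hne
  change g j₀ ≠ 0 at hne
  obtain ⟨K, hK, hfin, hKp, hKS⟩ := hres
    (((g j₀).coeff.support ×ˢ (g j₀).coeff.support).image (fun z => z.1⁻¹ * z.2) |>.filter
      (fun z => z ≠ 1)) (fun z hz => (Finset.mem_filter.1 hz).2)
  let ρ : N →* N ⧸ K := QuotientGroup.mk' K
  let θ := MonoidAlgebra.mapDomainRingHom (ZMod p) ρ
  have hθ : θ (g j₀) ≠ 0 := by
    apply map_ne_zero_of_sep ρ (g j₀) hne
    intro x hx y hy hxy
    by_contra hxy'
    apply hKS (x⁻¹ * y)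
    · rw [Finset.mem_filter, Finset.mem_image]
      refine ⟨⟨(x, y), Finset.mem_product.2 ⟨hx, hy⟩, rfl⟩, ?_⟩
      intro h
      exact hxy' (inv_mul_eq_one.1 h)
    · exact QuotientGroup.eq.1 hxy
  have hstep : ∀ l : Fin r, ∃ y : Fin r → MonoidAlgebra (ZMod p) (N ⧸ K),
      (∑ j, θ (g j) * y j = 0) ∧ ∀ j, y j - (if j = l then 1 else 0) ∈ aug (ZMod p) (N ⧸ K) := by
    intro l
    obtain ⟨δ, hδ, hy⟩ := hder hKp (ρ.comp π) (χ l) (hχ l)
    refine ⟨fun j => δ (a j), ?_, ?_⟩
    · have h1 := fox_sum π ρ b c W hW δ hδ u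
      have h2 := fox_sum π ρ a c α hα δ hδ u
      rw [h1] at h2
      simp only [hu, map_zero, zero_mul, Finset.sum_const_zero] at h2
      exact h2.symm
    · intro j
      have h4 : augHom (ZMod p) (N ⧸ K) (δ (a j)) = if j = l then 1 else 0 := by rw [hy, ha]
      change augHom (ZMod p) (N ⧸ K) (δ (a j) - (if j = l then 1 else 0)) = 0
      rw [map_sub, h4]
      split_ifs <;> simp
  have hind : ∀ i, ∀ j, θ (g j) ∈ (aug (ZMod p) (N ⧸ K)) ^ i := by
    intro i
    induction i with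
    | zero =>
      intro j
      rw [Submodule.pow_zero, Ideal.one_eq_top]
      trivial
    | succ i ih =>
      intro l
      obtain ⟨y, hy1, hy2⟩ := hstep l
      have h5 : θ (g l) = ∑ j, θ (g j) * y j - ∑ j, θ (g j) * (y j - (if j = l then 1 else 0)) := by
        rw [← Finset.sum_sub_distrib]
        rw [Finset.sum_congr rfl (g := fun j => θ (g j) * (if j = l then 1 else 0))]
        · simp
        · intro j _
          rw [← mul_sub]
          congr 1
          abel
      rw [h5, hy1, zero_sub]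
      apply Submodule.neg_mem
      apply Submodule.sum_mem
      intro j _
      have h6 := Ideal.mul_mem_mul (ih j) (hy2 j)
      rwa [← Submodule.pow_succ] at h6
  obtain ⟨q, hq⟩ := hnil hKp
  have h7 := hind q j₀
  rw [hq] at h7
  exact hθ h7

end

end Pool.Agent.Helper11.PK
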