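import Pool.Agent.Helper11.PC.Sys
import Pool.Agent.Helper93.PK.RESP
import Pool.Agent.Helper75.PC.GROW

/-! # Growth and residual properties of the nilpotent quotients of parafree groups -/

set_option linter.unusedSectionVars false

namespace Pool.Agent.Helper11.PK

universe u v w

open Pool.Agent.Helper28.Para Pool.Agent.Helper11.PC

/-- Residually a finite `p`-group, for finite sets. -/
def ResP (p : ℕ) (N : Type u) [Group N] : Prop :=
  ∀ S : Finset N, (∀ g ∈ S, g ≠ 1) → ∃ (K : Subgroup N) (_ : K.Normal),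
      Finite (N ⧸ K) ∧ IsPGroup p (N ⧸ K) ∧ ∀ g ∈ S, g ∉ K

theorem quot_props {X : Type v} {G : Type u} [Group G] (hG : IsParafreeOn X G) (k : ℕ) :
    PolyGrowth (G ⧸ lcs G k) ∧ ∀ (p : ℕ) [Fact p.Prime], ResP p (G ⧸ lcs G k) := by
  obtain ⟨c, hc, hint, hfin, hlcs⟩ := Helper34.PC.magg hG (Helper67.PC.magf X)
  obtain ⟨c', hc', hcc'⟩ := quot_sys hc hlcs k
  have hint' : ∀ (g : G ⧸ lcs G k) (v : List X), v.length ≤ k → ∃ z : ℤ, c' g v = z := by
    intro g v hv
    obtain ⟨g, rfl⟩ := QuotientGroup.mk_surjective g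
    rw [hcc' g v hv]
    exact hint g v
  refine ⟨Helper75.PC.grow hc' hint' ?_, fun p _ => Helper93.PK.resp hc' hint' p⟩
  intro g
  obtain ⟨g, rfl⟩ := QuotientGroup.mk_surjective g
  obtain ⟨X0, hX0⟩ := hfin g k
  refine ⟨X0, fun v hv hne => hX0 v hv ?_⟩
  rwa [hcc' g v hv] at hne

theorem finite_prods {N : Type u} [Group N] (S : Finset N) (j : ℕ) :
    {x : N | ∃ l : List N, l.length = j ∧ (∀ z ∈ l, z ∈ S) ∧ l.prod = x}.Finite := by
  have h := (List.finite_length_eq S j).image (fun l : List S => (l.map Subtype.val).prod)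
  apply h.subset
  rintro x ⟨l, hl, hz, rfl⟩
  refine ⟨l.attach.map (fun z => ⟨z.1, hz z.1 z.2⟩), ?_, ?_⟩
  · simp [hl]
  · simp [List.map_map, Function.comp_def]

theorem polyGrowth_subgroup {N : Type u} [Group N] (h : PolyGrowth N) (K : Subgroup N) :
    PolyGrowth K := by
  classical
  intro S
  obtain ⟨C, d, hCd⟩ := h (S.map ⟨Subtype.val, Subtype.val_injective⟩)
  refine ⟨C, d, fun j => le_trans ?_ (hCd j)⟩
  apply Set.ncard_le_ncard_of_injOn (fun x : K => (x : N)) (ht := finite_prods _ _)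
  · rintro x ⟨l, hl, hz, rfl⟩
    refine ⟨l.map Subtype.val, by simp [hl], ?_, ?_⟩
    · intro z hz'
      obtain ⟨y, hy, rfl⟩ := List.mem_map.1 hz'
      exact Finset.mem_map.2 ⟨y, hz y hy, rfl⟩
    · rw [← Subgroup.val_list_prod]
  · exact fun _ _ _ _ h => Subtype.ext h

theorem resP_subgroup {p : ℕ} {N : Type u} [Group N] (h : ResP p N) (K : Subgroup N) :
    ResP p K := by
  classical
  intro S hS
  obtain ⟨M, hM, hfin, hMp, hMS⟩ := h (S.map ⟨Subtype.val, Subtype.val_injective⟩) (by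
    intro g hg
    obtain ⟨y, hy, rfl⟩ := Finset.mem_map.1 hg
    intro h1
    exact hS y hy (Subtype.ext h1))
  let f : K ⧸ (M.subgroupOf K) →* N ⧸ M := QuotientGroup.map _ _ K.subtype (fun x hx => hx)
  have hf : Function.Injective f := by
    rw [injective_iff_map_eq_one]
    intro x hx
    obtain ⟨x, rfl⟩ := QuotientGroup.mk_surjective x
    change (QuotientGroup.mk (x : N) : N ⧸ M) = 1 at hx
    rw [QuotientGroup.eq_one_iff] at hx ⊢
    exact hx
  refine ⟨M.subgroupOf K, inferInstance, Finite.of_injective f hf, hMp.of_injective f hf, ?_⟩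
  intro g hg hgK
  exact hMS g (Finset.mem_map.2 ⟨g, hg, rfl⟩) hgK

end Pool.Agent.Helper11.PK
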