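import Pool.Agent.Helper11.PK.Core
import Pool.Agent.Helper11.PK.Nil
import Pool.Agent.Helper11.PK.Quot
import Pool.Agent.Helper83.PK.POREG
import Pool.Agent.Helper16.PK.PFOX
import Pool.Agent.Helper59.PK.DERP
import Pool.Agent.Helper32.PK.NILP

/-! # The inertness theorem, core form, mod p version -/

set_option linter.unusedSectionVars false
set_option linter.style.haveILetI false

namespace Pool.Agent.Helper11.PK

universe u v w

open MonoidAlgebra Pool.Agent.Helper28.Para Pool.Agent.Helper11.PC

theorem isFox_gl {k : Type} [Field k] {G : Type u} [Group G] {n : ℕ} {b : Fin n → G} {c : G}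
    {W : Fin n → MonoidAlgebra k G}
    (h : IsFox b c W) : gl k c - 1 = ∑ j, W j * (gl k (b j) - 1) := by
  have := h (MonoidAlgebra k G) (fun g => gl k g - 1) (by
    intro g h
    rw [smul_eq_mul, mul_sub, mul_one]
    have : gl k (g * h) = gl k g * gl k h := by
      rw [MonoidAlgebra.single_mul_single, one_mul]
    rw [this]; abel)
  exact this

/-- The lifting property for finite `p`-groups. -/
def LiftP (p : ℕ) (L : Type u) [Group L] : Prop :=
  ∀ {Q₁ Q₂ : Type u} [Group Q₁] [Group Q₂] [Finite Q₁] [Finite Q₂]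
      (_ : IsPGroup p Q₁) (_ : IsPGroup p Q₂) (θ : Q₂ →* Q₁) (_ : Function.Surjective θ)
      (φ : L →* Q₁), ∃ φ' : L →* Q₂, θ.comp φ' = φ

/-- **Inertness, core form.** -/
theorem inert_core {X : Type v} {G : Type u} [Group G] (hG : IsParafreeOn X G) (p : ℕ)
    [Fact p.Prime] (G0 : Subgroup G) (hlift : LiftP p G0)
    {r n m : ℕ} (a : Fin r → G0) (χ : Fin r → G0 → ZMod p)
    (hχ : ∀ l g h, χ l (g * h) = χ l g + χ l h)
    (ha : ∀ l j, χ l (a j) = if j = l then 1 else 0)
    (b : Fin n → G0) {Y : Type w} (c : Y → G0) (hc : Function.Injective (FreeGroup.lift c))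
    (hcC : Subgroup.closure (Set.range c) =
      Subgroup.closure (Set.range a) ⊓ Subgroup.closure (Set.range b))
    (y : Fin m → Y) (hy : Function.Injective y) (hmn : n < m) : False := by
  obtain ⟨oG, oN, hG1, hG2, hN1, hN2, hmon⟩ := exists_orders hG
  letI := oG
  letI := oN
  haveI : MulLeftStrictMono G0 := ⟨fun x a b h => hG1 a b x h⟩
  haveI : MulRightStrictMono G0 := ⟨fun x a b h => hG2 a b x h⟩
  let N : ℕ → Type u := fun k => G0.map (QuotientGroup.mk' (lcs G k))
  letI iN : ∀ k, Group (N k) := fun k =>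
    inferInstanceAs (Group (G0.map (QuotientGroup.mk' (lcs G k))))
  letI oN' : ∀ k, LinearOrder (N k) := fun k =>
    inferInstanceAs (LinearOrder (G0.map (QuotientGroup.mk' (lcs G k))))
  haveI : ∀ k, MulLeftStrictMono (N k) := fun k => ⟨fun x a b h => hN1 k a b x h⟩
  haveI : ∀ k, MulRightStrictMono (N k) := fun k => ⟨fun x a b h => hN2 k a b x h⟩
  let P : ∀ k, G0 →* N k := fun k => (QuotientGroup.mk' (lcs G k)).subgroupMap G0
  have hcm : ∀ i, c (y i) ∈ Subgroup.closure (Set.range a) ⊓ Subgroup.closure (Set.range b) := by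
    intro i
    rw [← hcC]
    exact Subgroup.subset_closure ⟨y i, rfl⟩
  choose W hW hWB using fun i => Helper16.PK.pfox (k := ZMod p) b (c (y i)) (hcm i).2
  choose α hα hαA using fun i => Helper16.PK.pfox (k := ZMod p) a (c (y i)) (hcm i).1
  refine core (k := ZMod p) (N := N)
    P (fun k a b h => hmon k a b h) ?_ ?_ ?_
    (Subgroup.closure (Set.range a)) (Subgroup.closure (Set.range b)) _ hcC hmn a rfl c hc rfl
    y hy W hWB α hαA (fun i => isFox_gl (hα i)) ?_
  · intro i j hij x hx
    have hx' : (QuotientGroup.mk (x : G) : G ⧸ lcs G j) = 1 := congrArg Subtype.val hx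
    apply Subtype.ext
    change (QuotientGroup.mk (x : G) : G ⧸ lcs G i) = 1
    rw [QuotientGroup.eq_one_iff] at hx' ⊢
    exact (⊤ : Subgroup G).lowerCentralSeries_antitone hij hx'
  · intro x hx
    by_contra hcon
    push Not at hcon
    apply hx
    apply Subtype.ext
    apply hG.resNilpotent
    intro n
    have : (QuotientGroup.mk (x : G) : G ⧸ lcs G n) = 1 := congrArg Subtype.val (hcon n)
    rwa [QuotientGroup.eq_one_iff] at this
  · intro k
    exact Helper83.PK.poreg (polyGrowth_subgroup (quot_props hG k).1 _)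
  · intro k u hu
    exact nil_rel_p p (P k) (fun hQ => Helper32.PK.NILP.nilp p hQ)
      (fun hQ ρ χ hχ => Helper59.PK.derp p hlift hQ ρ χ hχ)
      (resP_subgroup ((quot_props hG k).2 p) _) a χ hχ ha b (fun i => c (y i)) W hW α hα u hu

end Pool.Agent.Helper11.PK
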