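import Pool.Agent.Helper11.PK.Basis

/-! # The inertness theorem -/

set_option linter.unusedSectionVars false

namespace Pool.Agent.Helper11.PK

universe u v w

open MonoidAlgebra Pool.Agent.Helper28.Para Pool.Agent.Helper11.PC

/-- Closures in a subgroup. -/
theorem map_closure_sub {G : Type u} [Group G] (G0 : Subgroup G) {ι : Type*} (d : ι → G0) :
    (Subgroup.closure (Set.range d)).map G0.subtype =
      Subgroup.closure (Set.range fun i => (d i : G)) := by
  rw [MonoidHom.map_closure, ← Set.range_comp]
  rfl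

theorem lift_subtype {G : Type u} [Group G] (G0 : Subgroup G) {ι : Type*} (d : ι → G0) :
    G0.subtype.comp (FreeGroup.lift d) = FreeGroup.lift (fun i => (d i : G)) := by
  ext i
  simp

theorem inert_visible {X : Type v} {G : Type u} [Group G] (hG : IsParafreeOn X G) (p : ℕ)
    [Fact p.Prime] {P : Type w} [Group P] [Finite P] (hP : IsPGroup p P) (π : G →* P)
    {r : ℕ} (a : Fin r → G) (hr : MinGen ((Subgroup.closure (Set.range a)).map π) r)
    {n : ℕ} (hn : 1 ≤ n) (b : Fin n → G) :
    Function.Injective (FreeGroup.lift a : FreeGroup (Fin r) →* G) ∧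
    ∃ k ≤ 1 + ((Subgroup.closure (Set.range a)).map π).relIndex
        ((Subgroup.closure (Set.range b)).map π) * (n - 1),
      ∃ c : Fin k → G, Function.Injective (FreeGroup.lift c : FreeGroup (Fin k) →* G) ∧
        Subgroup.closure (Set.range c) =
          Subgroup.closure (Set.range a) ⊓ Subgroup.closure (Set.range b) := by
  set A := Subgroup.closure (Set.range a) with hA
  set B := Subgroup.closure (Set.range b) with hB
  obtain ⟨G0, hG0⟩ : ∃ G0, G0 = (A.map π).comap π := ⟨_, rfl⟩
  have hAG : A ≤ G0 := by rw [hG0]; exact Subgroup.le_comap_map π A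
  have haG : ∀ j, a j ∈ G0 := fun j => hAG (Subgroup.subset_closure ⟨j, rfl⟩)
  have hker : π.ker ≤ G0 := by rw [hG0]; exact Subgroup.ker_le_comap π _
  have hlift : LiftP p G0 := liftP_of_ker hG p hP π G0 hker
  obtain ⟨χ, hχ1, hχ2⟩ := visible_chi p hP π a hr G0 hG0 haG
  let a0 : Fin r → G0 := fun j => ⟨a j, haG j⟩
  have ha0 : Function.Injective (FreeGroup.lift a0 : FreeGroup (Fin r) →* G0) :=
    Helper19.PK.freep p hlift (fun w hw => free_resp p w hw) a0 χ hχ1 hχ2
  have hfree : Function.Injective (FreeGroup.lift a : FreeGroup (Fin r) →* G) := by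
    have h1 := lift_subtype G0 a0
    change G0.subtype.comp (FreeGroup.lift a0) = FreeGroup.lift a at h1
    rw [← h1]
    exact G0.subtype_injective.comp ha0
  refine ⟨hfree, ?_⟩
  -- Schreier
  let b0 : Fin n → B := fun j => ⟨b j, Subgroup.subset_closure ⟨j, rfl⟩⟩
  have hb0 : Subgroup.closure (Set.range b0) = ⊤ := by
    apply Subgroup.map_injective B.subtype_injective
    rw [map_closure_sub, ← MonoidHom.range_eq_map, Subgroup.range_subtype]
  have hG0fin : G0.FiniteIndex := by
    rw [hG0]
    constructor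
    rw [Subgroup.index_comap]
    have h3 : ((A.map π).subgroupOf π.range).FiniteIndex := inferInstance
    exact h3.index_ne_zero
  have hH : (G0.subgroupOf B).FiniteIndex := inferInstance
  obtain ⟨c1, hc1⟩ := Helper89.PK.schr hn b0 hb0 (G0.subgroupOf B)
  have hidx : (G0.subgroupOf B).index = (A.map π).relIndex (B.map π) := by
    change G0.relIndex B = _
    rw [hG0, Subgroup.relIndex_comap]
  have hc1B : Subgroup.closure (Set.range fun i => (c1 i : G)) = G0 ⊓ B := by
    rw [← map_closure_sub, hc1, Subgroup.subgroupOf_map_subtype]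
  have hc1G : ∀ i, (c1 i : G) ∈ G0 := by
    intro i
    have h2 : (c1 i : G) ∈ Subgroup.closure (Set.range fun i => (c1 i : G)) :=
      Subgroup.subset_closure ⟨i, rfl⟩
    rw [hc1B] at h2
    exact h2.1
  rw [← hidx]
  refine exists_basis a hfree (A ⊓ B) inf_le_left _ ?_
  intro Y c hc hcC y hy
  have hcG : ∀ i, c i ∈ G0 := by
    intro i
    have h2 : c i ∈ Subgroup.closure (Set.range c) := Subgroup.subset_closure ⟨i, rfl⟩
    rw [hcC] at h2
    exact hAG h2.1
  let c0 : Y → G0 := fun i => ⟨c i, hcG i⟩
  have hc0 : Function.Injective (FreeGroup.lift c0) := by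
    have h1 := lift_subtype G0 c0
    change G0.subtype.comp (FreeGroup.lift c0) = FreeGroup.lift c at h1
    rw [← h1] at hc
    intro x z hxz
    apply hc
    change ((FreeGroup.lift c0 x : G0) : G) = (FreeGroup.lift c0 z : G0)
    rw [hxz]
  refine inert_core hG p G0 hlift a0 χ hχ1 hχ2 (fun i => (⟨c1 i, hc1G i⟩ : G0)) c0 hc0 ?_ y hy
    (Nat.lt_succ_self _)
  apply Subgroup.map_injective G0.subtype_injective
  rw [map_closure_sub, Subgroup.map_inf _ _ _ G0.subtype_injective, map_closure_sub,
    map_closure_sub]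
  change Subgroup.closure (Set.range c) = Subgroup.closure (Set.range a) ⊓
    Subgroup.closure (Set.range fun i => (c1 i : G))
  rw [hcC, hc1B, ← inf_assoc, inf_eq_left.2 hAG]

end Pool.Agent.Helper11.PK
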