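import Pool.Agent.Helper11.PK.InertG
import Pool.Agent.Helper79.PC.THULL
import Pool.Agent.Helper58.PC.CHAIN
import Pool.Agent.Helper69.PC.TPROJ
import Pool.Agent.Helper55.PC.TBTW
import Pool.Agent.Helper32.PC.TVF
import Pool.Agent.Helper32.PC.TFP
import Pool.Agent.Helper29.PC.FPC
import Pool.Agent.Helper7.PC.HOW

/-! # Coherence for actions on trees -/

set_option linter.unusedSectionVars false

namespace Pool.Agent.Helper11.PK

universe u v w

open Pool.Agent.Helper28.Para Pool.Agent.Helper11.PC

/-- Intersections with finitely generated subgroups are finitely generated. -/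
def GoodSub {G : Type u} [Group G] (E : Subgroup G) : Prop :=
  ∀ H : Subgroup G, H.FG → (H ⊓ E).FG

section

variable {G : Type u} [Group G]

theorem fg_of_map {H : Type*} [Group H] {f : H →* G} (hf : Function.Injective f) {P : Subgroup H}
    (hP : (P.map f).FG) : P.FG := by
  have e : P ≃* P.map f := P.equivMapOfInjective f hf
  rw [← Group.fg_iff_subgroup_fg] at hP ⊢
  exact Group.fg_of_surjective (f := e.symm.toMonoidHom) e.symm.surjective

theorem fg_map' {H : Type*} [Group H] (f : H →* G) {P : Subgroup H} (hP : P.FG) :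
    (P.map f).FG := by
  classical
  obtain ⟨S, rfl⟩ := hP
  refine ⟨S.image f, ?_⟩
  rw [MonoidHom.map_closure, Finset.coe_image]

theorem howson_in {r : ℕ} (a : Fin r → G)
    (hfree : Function.Injective (FreeGroup.lift a : FreeGroup (Fin r) →* G)) (P Q : Subgroup G)
    (hP : P ≤ Subgroup.closure (Set.range a)) (hQ : Q ≤ Subgroup.closure (Set.range a))
    (hPf : P.FG) (hQf : Q.FG) : (P ⊓ Q).FG := by
  let f : FreeGroup (Fin r) →* G := FreeGroup.lift a
  have hr : f.range = Subgroup.closure (Set.range a) := FreeGroup.range_lift_eq_closure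
  have h1 : ∀ R : Subgroup G, R ≤ Subgroup.closure (Set.range a) → (R.comap f).map f = R := by
    intro R hR
    rw [Subgroup.map_comap_eq, hr, inf_eq_right.2 hR]
  have h2 : ∀ R : Subgroup G, R ≤ Subgroup.closure (Set.range a) → R.FG → (R.comap f).FG := by
    intro R hR hRf
    apply fg_of_map hfree
    change ((R.comap f).map f).FG
    rw [h1 R hR]
    exact hRf
  have h3 := Helper7.PC.HOW.how (P.comap f) (Q.comap f) (h2 P hP hPf) (h2 Q hQ hQf)
  have h4 := fg_map' f h3
  rw [Subgroup.map_inf _ _ _ hfree, h1 P hP, h1 Q hQ] at h4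
  exact h4

theorem fg_fin {B : Subgroup G} (hB : B.FG) :
    ∃ (n : ℕ) (_ : 1 ≤ n) (b : Fin n → G), Subgroup.closure (Set.range b) = B := by
  obtain ⟨S, rfl⟩ := hB
  let l : List G := 1 :: S.toList
  refine ⟨l.length, by simp [l], fun i => l.get i, ?_⟩
  have : Set.range (fun i => l.get i) = insert 1 (S : Set G) := by
    ext x
    simp only [Set.mem_range, Set.mem_insert_iff, Finset.mem_coe]
    rw [show (∃ y, l.get y = x) ↔ x ∈ l from List.mem_iff_get.symm]
    simp [l]
  rw [this]
  simp

end

section

variable {X : Type v} {G : Type u} [Group G]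

theorem good_visible (hG : IsParafreeOn X G) (p : ℕ)
    [Fact p.Prime] {P : Type w} [Group P] [Finite P] (hP : IsPGroup p P) (π : G →* P)
    {r : ℕ} (a : Fin r → G) (hr : MinGen ((Subgroup.closure (Set.range a)).map π) r) :
    Function.Injective (FreeGroup.lift a : FreeGroup (Fin r) →* G) ∧
      GoodSub (Subgroup.closure (Set.range a)) := by
  refine ⟨(inert_visible hG p hP π a hr le_rfl (fun _ : Fin 1 => (1 : G))).1, ?_⟩
  intro H hH
  obtain ⟨n, hn, b, rfl⟩ := fg_fin hH
  obtain ⟨_, k, _, c, _, hc⟩ := inert_visible hG p hP π a hr hn b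
  rw [inf_comm, ← hc]
  exact (Subgroup.fg_iff _).2 ⟨Set.range c, rfl, Set.finite_range c⟩

theorem good_inter (hG : IsParafreeOn X G) (p : ℕ)
    [Fact p.Prime] {P : Type w} [Group P] [Finite P] (hP : IsPGroup p P) (π : G →* P)
    {r : ℕ} (a : Fin r → G) (hr : MinGen ((Subgroup.closure (Set.range a)).map π) r)
    (B : Subgroup G) (hB : B.FG) : GoodSub (Subgroup.closure (Set.range a) ⊓ B) := by
  obtain ⟨hfree, hgood⟩ := good_visible hG p hP π a hr
  intro H hH
  have h1 : H ⊓ (Subgroup.closure (Set.range a) ⊓ B) =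
      (H ⊓ Subgroup.closure (Set.range a)) ⊓ (B ⊓ Subgroup.closure (Set.range a)) := by
    ext x
    simp only [Subgroup.mem_inf]
    tauto
  rw [h1]
  exact howson_in a hfree _ _ inf_le_right inf_le_right (hgood H hH) (hgood B hB)

/-- Subgroups of finitely generated commutative groups. -/
theorem fg_of_comm {E : Type*} [CommGroup E] (h : Group.FG E) (M : Subgroup E) : M.FG := by
  have h2 : Module.Finite ℤ (Additive E) := by
    rw [Module.Finite.iff_addGroup_fg]
    exact (GroupFG.iff_add_fg).1 h
  have h3 : IsNoetherian ℤ (Additive E) := inferInstance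
  rw [Subgroup.fg_iff_add_fg]
  have h4 := h3.noetherian (AddSubgroup.toIntSubmodule (Subgroup.toAddSubgroup M))
  rwa [Submodule.fg_iff_addSubgroup_fg, AddSubgroup.toIntSubmodule_toAddSubgroup] at h4

/-- Subgroups of finitely generated abelian subgroups. -/
theorem good_comm (E : Subgroup G) (hE : E.FG) (hc : ∀ x ∈ E, ∀ y ∈ E, x * y = y * x) :
    GoodSub E := by
  intro H _
  let inst : CommGroup E := { (inferInstance : Group E) with
    mul_comm := fun x y => Subtype.ext (hc x x.2 y y.2) }
  have h1 : Group.FG E := (Group.fg_iff_subgroup_fg E).2 hE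
  have h2 : (H.subgroupOf E).FG := fg_of_comm h1 _
  have h3 := fg_map' E.subtype h2
  rwa [Subgroup.subgroupOf_map_subtype] at h3

theorem comm_closure {x y : G} (hxy : x * y = y * x) :
    ∀ u ∈ Subgroup.closure {x, y}, ∀ v ∈ Subgroup.closure {x, y}, u * v = v * u := by
  have h1 : Subgroup.closure {x, y} ≤ Subgroup.centralizer {x, y} := by
    rw [Subgroup.closure_le]
    rintro z (rfl | rfl)
    · rw [SetLike.mem_coe, Subgroup.mem_centralizer_iff]
      rintro w (rfl | rfl)
      · rfl
      · exact hxy.symm
    · rw [SetLike.mem_coe, Subgroup.mem_centralizer_iff]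
      rintro w (rfl | rfl)
      · exact hxy
      · rfl
  intro u hu v hv
  have h2 : Subgroup.closure {x, y} ≤ Subgroup.centralizer {u} := by
    rw [Subgroup.closure_le]
    intro z hz
    rw [SetLike.mem_coe, Subgroup.mem_centralizer_iff]
    rintro w rfl
    exact (Subgroup.mem_centralizer_iff.1 (h1 hu) z hz).symm
  exact Subgroup.mem_centralizer_iff.1 (h2 hv) u rfl

/-- Intersections of two-generator subgroups of parafree groups with finitely generated
subgroups are good. -/
theorem good_two (hG : IsParafreeOn X G) (x y : G) (B : Subgroup G) (hB : B.FG) :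
    GoodSub (Subgroup.closure {x, y} ⊓ B) := by
  by_cases hxy : x * y = y * x
  · have h1 : (Subgroup.closure {x, y} ⊓ B).FG := by
      rw [inf_comm]
      apply good_comm _ _ (comm_closure hxy) _ hB
      exact (Subgroup.fg_iff _).2 ⟨{x, y}, rfl, by simp⟩
    exact good_comm _ h1 (fun u hu v hv => comm_closure hxy u hu.1 v hv.1)
  · have hne : x * y * (y * x)⁻¹ ≠ 1 := by
      intro h
      exact hxy (mul_inv_eq_one.1 h)
    obtain ⟨k, hk⟩ : ∃ k, x * y * (y * x)⁻¹ ∉ lcs G k := by
      by_contra hcon
      push Not at hcon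
      exact hne (hG.resNilpotent _ hcon)
    haveI : Fact (Nat.Prime 2) := ⟨Nat.prime_two⟩
    obtain ⟨K, hK, hfin, hKp, hKS⟩ := (quot_props hG k).2 2
      {QuotientGroup.mk (x * y * (y * x)⁻¹)} (by
        intro g hg
        rw [Finset.mem_singleton] at hg
        rw [hg]
        intro h
        exact hk ((QuotientGroup.eq_one_iff _).1 h))
    let π : G →* (G ⧸ lcs G k) ⧸ K := (QuotientGroup.mk' K).comp (QuotientGroup.mk' (lcs G k))
    have hπ : π x * π y ≠ π y * π x := by
      intro h
      apply hKS _ (Finset.mem_singleton_self _)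
      have h1 : π (x * y * (y * x)⁻¹) = 1 := by
        rw [map_mul, map_mul, map_inv, map_mul, h, mul_inv_cancel]
      exact (QuotientGroup.eq_one_iff _).1 h1
    have hcl : Subgroup.closure (Set.range ![x, y]) = Subgroup.closure {x, y} := by
      congr 1
      simp [Matrix.range_cons, Matrix.range_empty, Set.pair_comm]
    have hmin : MinGen ((Subgroup.closure (Set.range ![x, y])).map π) 2 := by
      intro m d hd
      by_contra hlt
      push Not at hlt
      apply hπ
      have hx : π x ∈ Subgroup.closure (Set.range d) := by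
        rw [hd, hcl]
        exact Subgroup.mem_map_of_mem π (Subgroup.subset_closure (by simp))
      have hy : π y ∈ Subgroup.closure (Set.range d) := by
        rw [hd, hcl]
        exact Subgroup.mem_map_of_mem π (Subgroup.subset_closure (by simp))
      have hsub : ∃ z, Subgroup.closure (Set.range d) ≤ Subgroup.zpowers z := by
        rcases Nat.eq_zero_or_pos m with h0 | h0
        · refine ⟨1, ?_⟩
          rw [Subgroup.closure_le]
          rintro _ ⟨i, rfl⟩
          exact absurd i.2 (by omega)
        · refine ⟨d ⟨0, h0⟩, ?_⟩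
          rw [Subgroup.closure_le]
          rintro _ ⟨i, rfl⟩
          have : i = ⟨0, h0⟩ := Fin.ext (by omega)
          rw [this]
          exact Subgroup.mem_zpowers _
      obtain ⟨z, hz⟩ := hsub
      obtain ⟨i, hi⟩ := Subgroup.mem_zpowers_iff.1 (hz hx)
      obtain ⟨j, hj⟩ := Subgroup.mem_zpowers_iff.1 (hz hy)
      rw [← hi, ← hj, ← zpow_add, ← zpow_add, add_comm]
    have := good_inter hG 2 hKp π ![x, y] hmin B hB
    rwa [hcl] at this

/-- At most two generators: one can write them as `x`, `y`. -/
theorem exists_pair {r : ℕ} (hr : r ≤ 2) (a : Fin r → G) :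
    ∃ x y : G, Subgroup.closure (Set.range a) = Subgroup.closure {x, y} := by
  have h1 : ∀ S : Set G, Subgroup.closure (insert 1 S) = Subgroup.closure S := by
    intro S; simp
  interval_cases r
  · refine ⟨1, 1, ?_⟩
    rw [Set.pair_eq_singleton, Set.range_eq_empty, Subgroup.closure_empty,
      Subgroup.closure_singleton_one]
  · refine ⟨a 0, a 0, ?_⟩
    congr 1
    ext z
    simp only [Set.mem_range, Set.mem_insert_iff, Set.mem_singleton_iff, or_self]
    constructor
    · rintro ⟨i, rfl⟩
      rw [Subsingleton.elim i 0]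
    · rintro rfl
      exact ⟨0, rfl⟩
  · refine ⟨a 0, a 1, ?_⟩
    congr 1
    ext z
    simp only [Set.mem_range, Set.mem_insert_iff, Set.mem_singleton_iff]
    constructor
    · rintro ⟨i, rfl⟩
      fin_cases i
      · exact Or.inl rfl
      · exact Or.inr rfl
    · rintro (rfl | rfl)
      · exact ⟨0, rfl⟩
      · exact ⟨1, rfl⟩

end

end Pool.Agent.Helper11.PK
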