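import Pool.Agent.Helper11.PK.Inert
import Pool.Agent.Helper8.PK.EXTP
import Pool.Agent.Helper56.PK.BURN
import Pool.Agent.Helper19.PK.FREEP
import Pool.Agent.Helper89.PK.SCHR
import Pool.Agent.Helper16.PC.FREEX
import Pool.Agent.Helper75.PK.LIFTP

/-! # Visible subgroups of parafree groups -/

set_option linter.unusedSectionVars false
set_option linter.style.haveILetI false

namespace Pool.Agent.Helper11.PK

universe u v w

open MonoidAlgebra Pool.Agent.Helper28.Para Pool.Agent.Helper11.PC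

section

variable {X : Type v} {G : Type u} [Group G]

theorem liftP_of_ker (hG : IsParafreeOn X G) (p : ℕ) [Fact p.Prime] {P : Type w} [Group P]
    [Finite P] (hP : IsPGroup p P) (π : G →* P) (G0 : Subgroup G) (hG0 : π.ker ≤ G0) :
    LiftP p G0 := by
  obtain ⟨s, hs1, hs2⟩ := exists_good_hom hG
  intro Q₁ Q₂ _ _ _ _ h1 h2 θ hθ φ
  exact Helper75.PK.liftp s p G0 (fun hE => Helper8.PK.extp s hs1 hs2 p hP π G0 hG0 hE) h1 h2 θ hθ φ

/-- Free groups of finite rank are residually finite `p`-groups. -/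
theorem free_resp (p : ℕ) [Fact p.Prime] {r : ℕ} (w : FreeGroup (Fin r)) (hw : w ≠ 1) :
    ∃ (Q : Type) (_ : Group Q) (_ : Finite Q)
      (_ : IsPGroup p Q) (ψ : FreeGroup (Fin r) →* Q), ψ w ≠ 1 := by
  classical
  have hF : IsParafreeOn (Fin r) (FreeGroup (Fin r)) :=
    ⟨fun g hg => Helper16.PC.free_resNilp g hg, fun n => ⟨MulEquiv.refl _⟩⟩
  obtain ⟨n, hn⟩ : ∃ n, w ∉ lcs (FreeGroup (Fin r)) n := by
    by_contra hcon
    push Not at hcon
    exact hw (Helper16.PC.free_resNilp w hcon)
  obtain ⟨K, hK, hfin, hKp, hKS⟩ := (quot_props hF n).2 p {QuotientGroup.mk w} (by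
    intro g hg
    rw [Finset.mem_singleton] at hg
    rw [hg]
    intro h
    exact hn ((QuotientGroup.eq_one_iff w).1 h))
  refine ⟨(FreeGroup (Fin r) ⧸ lcs (FreeGroup (Fin r)) n) ⧸ K, inferInstance, hfin, hKp,
    (QuotientGroup.mk' K).comp (QuotientGroup.mk' _), ?_⟩
  intro h
  apply hKS (QuotientGroup.mk w) (Finset.mem_singleton_self _)
  exact (QuotientGroup.eq_one_iff _).1 h

/-- The data attached to visible elements. -/
theorem visible_chi (p : ℕ) [Fact p.Prime] {P : Type w} [Group P]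
    [Finite P] (hP : IsPGroup p P) (π : G →* P) {r : ℕ} (a : Fin r → G)
    (hr : MinGen ((Subgroup.closure (Set.range a)).map π) r)
    (G0 : Subgroup G) (hG0 : G0 = ((Subgroup.closure (Set.range a)).map π).comap π)
    (haG : ∀ j, a j ∈ G0) :
    ∃ χ : Fin r → G0 → ZMod p, (∀ l g h, χ l (g * h) = χ l g + χ l h) ∧
      ∀ l j, χ l ⟨a j, haG j⟩ = if j = l then 1 else 0 := by
  let P' := (Subgroup.closure (Set.range a)).map π
  let x : Fin r → P' := fun j => ⟨π (a j), Subgroup.mem_map_of_mem π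
    (Subgroup.subset_closure ⟨j, rfl⟩)⟩
  have hmap : ∀ (m : ℕ) (d : Fin m → P'), (Subgroup.closure (Set.range d)).map P'.subtype =
      Subgroup.closure (Set.range fun i => (d i : P)) := by
    intro m d
    rw [MonoidHom.map_closure, ← Set.range_comp]
    rfl
  have htop : (⊤ : Subgroup P').map P'.subtype = P' := by
    rw [← MonoidHom.range_eq_map, Subgroup.range_subtype]
  have hx : Subgroup.closure (Set.range x) = ⊤ := by
    apply Subgroup.map_injective P'.subtype_injective
    rw [hmap, htop]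
    change Subgroup.closure (Set.range fun i => π (a i)) = (Subgroup.closure (Set.range a)).map π
    rw [MonoidHom.map_closure, ← Set.range_comp]
    rfl
  have hr' : MinGen (⊤ : Subgroup P') r := by
    intro m d hd
    apply hr m (fun i => (d i : P))
    rw [← hmap, hd, htop]
  choose χ hχ1 hχ2 using fun l => Helper56.PK.burn p (hP.to_subgroup P') x hx hr' l
  have hmem : ∀ g : G0, π g ∈ P' := by
    rintro ⟨g, hg⟩
    have hg' : g ∈ G0 := hg
    rw [hG0] at hg'
    exact hg'
  refine ⟨fun l g => χ l ⟨π g, hmem g⟩, ?_, ?_⟩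
  · intro l g h
    have e : (⟨π ((g * h : G0) : G), hmem (g * h)⟩ : P') =
        ⟨π (g : G), hmem g⟩ * ⟨π (h : G), hmem h⟩ := Subtype.ext (map_mul π _ _)
    change χ l ⟨π ((g * h : G0) : G), hmem (g * h)⟩ = _
    rw [e, hχ1]
  · intro l j
    exact hχ2 l j

end

end Pool.Agent.Helper11.PK
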